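import Pool.Agent.P.MP_21cc92_lc.Rigid

set_option autoImplicit false

namespace Pool.Agent.P.MP_21cc92_lc

open Filter MeasureTheory

variable {s : ℕ → X}

section meas
variable {α : Type} [MeasurableSpace α]

theorem meas_eval {f : α → X} {g : α → ℕ} (hf : Measurable f) (hg : Measurable g) :
    Measurable fun a => f a (g a) := by
  have h : Measurable fun q : X × ℕ => q.1 q.2 :=
    measurable_from_prod_countable_left fun n => measurable_pi_apply n
  exact h.comp (hf.prodMk hg)

theorem meas_evalN {β : Type} [MeasurableSpace β] {f : α → ℕ → β} {g : α → ℕ}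
    (hf : Measurable f) (hg : Measurable g) : Measurable fun a => f a (g a) := by
  have h : Measurable fun q : (ℕ → β) × ℕ => q.1 q.2 :=
    measurable_from_prod_countable_left fun n => measurable_pi_apply n
  exact h.comp (hf.prodMk hg)

theorem meas_eqB {β : Type} [MeasurableSpace β] [Countable β] [MeasurableSingletonClass β]
    {f g : α → β} (hf : Measurable f) (hg : Measurable g) : Measurable fun a => f a = g a :=
  measurableSet_setOfPred.mp (measurableSet_eq_fun hf hg)

theorem meas_lt {f g : α → ℕ} (hf : Measurable f) (hg : Measurable g) :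
    Measurable fun a => f a < g a :=
  measurableSet_setOfPred.mp (measurableSet_lt hf hg)

theorem meas_le {f g : α → ℕ} (hf : Measurable f) (hg : Measurable g) :
    Measurable fun a => f a ≤ g a :=
  measurableSet_setOfPred.mp (measurableSet_le hf hg)

theorem meas_eqX {f g : α → X} (hf : Measurable f) (hg : Measurable g) :
    Measurable fun a => f a = g a := by
  simp only [funext_iff]
  exact Measurable.forall fun j =>
    meas_eqB ((measurable_pi_apply j).comp hf) ((measurable_pi_apply j).comp hg)

theorem meas_agree {n : α → ℕ} {f g : α → X} (hn : Measurable n) (hf : Measurable f)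
    (hg : Measurable g) : Measurable fun a => Agree (n a) (f a) (g a) :=
  Measurable.forall fun j => (meas_lt measurable_const hn).imp
    (meas_eqB ((measurable_pi_apply j).comp hf) ((measurable_pi_apply j).comp hg))

theorem meas_wall {n : α → ℕ} {f : α → X} (hn : Measurable n) (hf : Measurable f) :
    Measurable fun a => IsWall s (n a) (f a) :=
  (meas_agree hn hf ((measurable_from_top (f := s)).comp hn)).and
    (meas_eqB (meas_eval hf hn) measurable_const)

theorem meas_flip {n : α → ℕ} {f : α → X} (hn : Measurable n) (hf : Measurable f) :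
    Measurable fun a => flip (f a) (n a) := by
  have h : Measurable fun q : X × ℕ => flip q.1 q.2 :=
    measurable_from_prod_countable_left fun n => measurable_update_left
  exact h.comp (hf.prodMk hn)

theorem meas_enc {n : α → ℕ} {f : α → X} (hn : Measurable n) (hf : Measurable f) :
    Measurable fun a => enc (f a) (n a) := by
  have h : Measurable fun q : X × ℕ => enc q.1 q.2 := by
    refine measurable_from_prod_countable_left fun n => ?_
    have h1 : Measurable fun y : X => fun j : Fin n => y j :=
      measurable_pi_lambda _ fun j => measurable_pi_apply _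
    exact (measurable_of_countable
      (fun v : Fin n → Bool => Encodable.encode (List.ofFn v))).comp h1
  exact h.comp (hf.prodMk hn)

theorem meas_bt {w : α → ℕ → X} {l : α → ℕ → ℕ} {i : α → ℕ} (hw : Measurable w)
    (hl : Measurable l) (hi : Measurable i) : Measurable fun a => bt (w a) (l a) (i a) :=
  meas_eval (f := fun a => w a (i a + 1)) (g := fun a => l a (i a))
    (meas_evalN hw (hi.add_const 1)) (meas_evalN hl hi)

theorem meas_dead {w : α → ℕ → X} {l : α → ℕ → ℕ} (hw : Measurable w)
    (hl : Measurable l) (i : ℕ) : Measurable fun a => dead (w a) (l a) i :=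
  Measurable.ite (measurableSet_setOfPred.mpr (meas_eqB (meas_bt hw hl measurable_const)
    measurable_const)) ((measurable_pi_apply i).comp hw) ((measurable_pi_apply (i + 1)).comp hw)

theorem meas_live {w : α → ℕ → X} {l : α → ℕ → ℕ} (hw : Measurable w)
    (hl : Measurable l) (i : ℕ) : Measurable fun a => live (w a) (l a) i :=
  Measurable.ite (measurableSet_setOfPred.mpr (meas_eqB (meas_bt hw hl measurable_const)
    measurable_const)) ((measurable_pi_apply (i + 1)).comp hw) ((measurable_pi_apply i).comp hw)

theorem meas_shape {x : α → X} {w : α → ℕ → X} {l : α → ℕ → ℕ} (hx : Measurable x)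
    (hw : Measurable w) (hl : Measurable l) : Measurable fun a => Shape (x a) (w a) (l a) := by
  have : (fun a => Shape (x a) (w a) (l a)) = fun a => (∀ i, l a i < l a (i + 1)) ∧
      (∀ i, Agree (l a i) (x a) (w a i)) ∧ bt (w a) (l a) 0 = true := by
    funext a
    exact propext ⟨fun h => ⟨h.1, h.2, h.3⟩, fun h => ⟨h.1, h.2.1, h.2.2⟩⟩
  rw [this]
  exact (Measurable.forall fun i => meas_lt ((measurable_pi_apply i).comp hl)
      ((measurable_pi_apply (i + 1)).comp hl)).and
    ((Measurable.forall fun i => meas_agree ((measurable_pi_apply i).comp hl) hx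
      ((measurable_pi_apply i).comp hw)).and
      (meas_eqB (meas_bt hw hl measurable_const) measurable_const))

theorem meas_code {w : α → ℕ → X} {l : α → ℕ → ℕ} (hw : Measurable w) (hl : Measurable l) :
    Measurable fun a => Code (w a) (l a) := by
  refine Measurable.forall fun i => ?_
  have he : Measurable fun a => enc (w a 0) (l a i) :=
    meas_enc ((measurable_pi_apply i).comp hl) ((measurable_pi_apply 0).comp hw)
  exact (meas_eqB (meas_bt hw hl measurable_const) measurable_const).imp
    ((Measurable.forall fun t => (meas_le measurable_const he).imp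
      (meas_eqB (meas_bt hw hl measurable_const) measurable_const)).and
      (meas_eqB (meas_bt hw hl ((he.add_const 1).const_add (i + 1))) measurable_const))

theorem continuous_of_agree {β : Type} [TopologicalSpace β] {g : X → β} {d : ℕ}
    (h : ∀ a b, Agree d a b → g a = g b) : Continuous g := by
  have h1 : Continuous fun y : X => fun j : Fin d => y j :=
    continuous_pi fun j => continuous_apply _
  have h2 : g = (fun v : Fin d → Bool => g fun j => if hj : j < d then v ⟨j, hj⟩ else false) ∘
      fun y : X => fun j : Fin d => y j := by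
    funext y
    exact h _ _ fun j hj => by simp [hj]
  rw [h2]
  exact continuous_of_discreteTopology.comp h1

theorem continuous_sg (m : ℕ) (p : X) (d : ℕ) : Continuous (sg s m p d) :=
  continuous_of_agree fun _ _ => sg_congr

theorem meas_red {x : α → X} {w : α → ℕ → X} (hx : Measurable x) (hw : Measurable w) :
    Measurable fun a => Red s (x a) (w a) := by
  refine Measurable.forall fun i => Measurable.forall fun m => Measurable.exists fun N =>
    Measurable.forall fun d => measurable_const.imp ?_
  have hcl : IsClosed {q : X × X × X × X | ∀ p, IsWall s m p →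
      sg s m p d q.1 ≠ sg s m p d q.2.1 →
        sg s m p d q.2.2.1 = sg s m p d q.1 ∧ sg s m p d q.2.2.2 = sg s m p d q.2.1} := by
    simp only [Set.ofPred_forall]
    refine isClosed_iInter fun p => isClosed_iInter fun _ => ?_
    have hc := continuous_sg (s := s) m p d
    have h4 : Continuous fun q : X × X × X × X =>
        (sg s m p d q.1, sg s m p d q.2.1, sg s m p d q.2.2.1, sg s m p d q.2.2.2) := by
      fun_prop
    have h5 := (isClosed_discrete {r : Bool × Bool × Bool × Bool |
      r.1 ≠ r.2.1 → r.2.2.1 = r.1 ∧ r.2.2.2 = r.2.1}).preimage h4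
    convert h5 using 1
    ext q
    simp
  have h6 : Measurable fun a => (w a i, w a (i + 1), w a 0, x a) :=
    ((measurable_pi_apply i).comp hw).prodMk (((measurable_pi_apply (i + 1)).comp hw).prodMk
      (((measurable_pi_apply 0).comp hw).prodMk hx))
  exact (measurableSet_setOfPred.mp hcl.measurableSet).comp h6

end meas

theorem meas_wit : Measurable (Wit s) := by
  refine Measurable.forall fun σ => ?_
  have ht : Measurable fun τ : List ℕ → T × A => (τ σ).1 := (measurable_pi_apply σ).fst
  have ha : Measurable fun τ : List ℕ → T × A => (τ σ).2 := (measurable_pi_apply σ).snd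
  refine Measurable.or ?_ (Measurable.and ?_ (Measurable.forall fun i => ?_))
  · exact (meas_eqB ht.fst measurable_const).and ((meas_wall ht.snd.fst ht.snd.snd.fst).and
      (meas_eqX ht.snd.snd.snd (meas_flip ht.snd.fst ht.snd.snd.fst)))
  · exact (meas_eqB ht.fst (((measurable_pi_apply 0).comp ha.snd.snd).add_const 1)).and
      ((meas_eqB ht.snd.fst ((measurable_pi_apply 0).comp ha.snd.fst)).and
      ((meas_eqX ht.snd.snd.fst ((measurable_pi_apply 0).comp ha.fst)).and
      ((meas_shape ht.snd.snd.snd ha.fst ha.snd.fst).and
      ((meas_code ha.fst ha.snd.fst).and (meas_red ht.snd.snd.snd ha.fst)))))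
  · have ht' : Measurable fun τ : List ℕ → T × A => (τ (σ ++ [i])).1 :=
      (measurable_pi_apply (σ ++ [i])).fst
    simp only [child, Prod.ext_iff]
    exact (meas_eqB ht'.fst ((measurable_pi_apply i).comp ha.snd.snd)).and
      ((meas_eqB ht'.snd.fst ((measurable_pi_apply i).comp ha.snd.fst)).and
      ((meas_eqX ht'.snd.snd.fst (meas_dead ha.fst ha.snd.fst i)).and
      (meas_eqX ht'.snd.snd.snd (meas_live ha.fst ha.snd.fst i))))

theorem Gr_analytic (s : ℕ → X) : AnalyticSet {p : X × X | (Gr s).Adj p.1 p.2} := by
  have hW : MeasurableSet {τ | Wit s τ} := measurableSet_setOfPred.mpr meas_wit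
  have h0 : Measurable fun τ : List ℕ → T × A => (τ []).1.2.2 :=
    (measurable_pi_apply []).fst.snd.snd
  have h1 := hW.analyticSet_image h0
  have h2 := hW.analyticSet_image (measurable_swap.comp h0)
  have h3 := AnalyticSet.iUnion (ι := Bool) (s := fun b => if b = true then
    (fun τ : List ℕ → T × A => (τ []).1.2.2) '' {τ | Wit s τ} else
    (Prod.swap ∘ fun τ : List ℕ → T × A => (τ []).1.2.2) '' {τ | Wit s τ}) (by
      intro b
      cases b
      · simpa using h2
      · simpa using h1)
  convert h3 using 1
  ext ⟨a, b⟩
  simp only [Set.mem_ofPred_eq, Set.mem_iUnion, Bool.exists_bool, Bool.false_eq_true, if_false,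
    if_true, Set.mem_image, Function.comp]
  constructor
  · rintro ⟨l, ⟨k, τ, h4, h5⟩ | ⟨k, τ, h4, h5⟩⟩
    · exact Or.inr ⟨τ, h4, by rw [h5]⟩
    · exact Or.inl ⟨τ, h4, by rw [h5]; rfl⟩
  · rintro (⟨τ, h4, h5⟩ | ⟨τ, h4, h5⟩)
    · refine ⟨(τ []).1.2.1, Or.inr ⟨(τ []).1.1, τ, h4, ?_⟩⟩
      obtain ⟨h6, h7⟩ := Prod.ext_iff.mp h5
      exact Prod.ext rfl (Prod.ext rfl (Prod.ext h7 h6))
    · refine ⟨(τ []).1.2.1, Or.inl ⟨(τ []).1.1, τ, h4, ?_⟩⟩
      exact Prod.ext rfl (Prod.ext rfl h5)

end Pool.Agent.P.MP_21cc92_lc
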