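import Pool.Agent.P.MP_21cc92_lc.Extra

/-!
The graph is Borel (witness trees are unique after normalisation), and no Baire measurable map
reduces the basic graph to it.
-/

set_option autoImplicit false

namespace Pool.Agent.P.MP_21cc92_lc

open Filter MeasureTheory Topology

variable {s : ℕ → X}

theorem Edge.subset_of_finite {l : ℕ} {a b : X} (h : Edge s l a b) {x : X} {w : ℕ → X}
    {l' : ℕ → ℕ} (hr : Pre s x w l') (N : ℕ)
    (hc : ∀ e ∈ D s a b, ∃ j, j < N ∧ e ∈ D s (w j) (w (j + 1))) :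
    ∃ j, D s a b ⊆ D s (w j) (w (j + 1)) := by
  rcases h with h | h
  · obtain ⟨p, ⟨j, -, rfl⟩, hp⟩ := h.subset_of_finite
      ((Set.finite_Iio N).image fun j => (w j, w (j + 1)))
      (by rintro p ⟨j, -, rfl⟩; exact ⟨_, hr.edge j⟩)
      (fun e he => let ⟨j, h1, h2⟩ := hc e he; ⟨_, ⟨j, h1, rfl⟩, h2⟩)
    exact ⟨j, hp⟩
  · obtain ⟨p, ⟨j, -, rfl⟩, hp⟩ := h.subset_of_finite
      ((Set.finite_Iio N).image fun j => (w (j + 1), w j))
      (by rintro p ⟨j, -, rfl⟩; exact ⟨_, (hr.edge j).symm⟩)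
      (fun e he => let ⟨j, h1, h2⟩ := hc e.star (star_mem_D.mpr he)
        ⟨_, ⟨j, h1, rfl⟩, star_mem_D.mp h2⟩)
    exact ⟨j, D_subset_swap hp⟩

theorem Edge.inj {l l' : ℕ} {a b c : X} (h : Edge s l a b) (h' : Edge s l' a c)
    (hD : D s a b = D s a c) : b = c := by
  rcases h with h | h
  · exact (h.inj h' hD).2.symm
  · exact (h.inj h'.symm (Set.Subset.antisymm (D_subset_swap hD.le) (D_subset_swap hD.ge))).1.symm

theorem Edge.lev_eq {l l' : ℕ} {a b : X} (h : Edge s l a b) (h' : Edge s l' a b) : l = l' := by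
  have key : ∀ {l l' : ℕ}, Edge s l a b → Edge s l' a b → ¬ l < l' := by
    intro l l' h h' hl
    have h1 : a l = b l := by
      rcases h' with h' | h'
      · exact h'.agree l hl
      · exact (h'.agree l hl).symm
    rcases h with h | h <;> rw [h.dead_bit, h.live_bit] at h1 <;> simp at h1
  exact le_antisymm (not_lt.mp (key h' h)) (not_lt.mp (key h h'))

theorem Ray.step_in {x : X} {w w' : ℕ → X} {l l' : ℕ → ℕ} (h : Ray s x w l) (h' : Ray s x w' l')
    (h0 : w 0 = w' 0) {i : ℕ} (hi : w i = w' i) :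
    ∃ j, i ≤ j ∧ D s (w i) (w (i + 1)) ⊆ D s (w' j) (w' (j + 1)) := by
  obtain ⟨M, hM⟩ := h'.toPre.exists_step (h0 ▸ h.lam_mem (i + 1))
  obtain ⟨j, hj⟩ := (h.toPre.edge i).subset_of_finite h'.toPre (M + 1) (fun e he => by
    obtain ⟨j, hj⟩ := h'.toPre.exists_step (h0 ▸ h.step_subset i he)
    refine ⟨j, ?_, hj⟩
    by_contra hc
    exact lt_asymm (h.step_lt (Nat.lt_succ_self i) he (h.toPre.lam_mem (i + 1)))
      (h'.step_lt (by omega) hM hj))
  refine ⟨j, ?_, hj⟩
  by_contra hc
  have m := h.toPre.lam_mem i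
  have m' := hj m
  exact m.1 (hi ▸ h'.mem_mono (h'.step_subset j m').1 (by omega : j + 1 ≤ i) m'.2)

/-- two coded rays with the same ends coincide -/
theorem Ray.unique {x : X} {w w' : ℕ → X} {l l' : ℕ → ℕ} (h : Ray s x w l) (h' : Ray s x w' l')
    (h0 : w 0 = w' 0) : w = w' ∧ l = l' := by
  have hw : ∀ i, w i = w' i := by
    intro i
    induction i with
    | zero => exact h0
    | succ i ih =>
      obtain ⟨j, j1, j2⟩ := h.step_in h' h0 ih
      obtain ⟨j', j1', j2'⟩ := h'.step_in h h0.symm ih.symm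
      have m := h.toPre.lam_mem i
      have m' := h'.toPre.lam_mem i
      have e : j = i ∧ j' = i := by
        rcases j1.lt_or_eq with a | a <;> rcases j1'.lt_or_eq with b | b
        · exact absurd (h.step_lt b m (j2' m')) (lt_asymm (h'.step_lt a m' (j2 m)))
        · subst b
          exact absurd (h'.step_lt a m' (j2 (j2' m'))) (lt_irrefl _)
        · subst a
          exact absurd (h.step_lt b m (j2' (j2 m))) (lt_irrefl _)
        · exact ⟨a.symm, b.symm⟩
      obtain ⟨e1, e2⟩ := e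
      rw [e1] at j2
      rw [e2] at j2'
      refine (h.toPre.edge i).inj (ih ▸ h'.toPre.edge i) ?_
      have := Set.Subset.antisymm j2 j2'
      rwa [← ih] at this
  obtain rfl : w = w' := funext hw
  exact ⟨rfl, funext fun i => (h.toPre.edge i).lev_eq (h'.toPre.edge i)⟩

theorem node_ray {t : T} {a : A} (h : Node s t a) (hc : ∀ i, child a i ∈ V s) :
    Ray s t.2.2.2 a.1 a.2.1 :=
  ⟨⟨h.2.2.2.1, fun i => ⟨_, hc i⟩⟩, h.2.2.2.2.1, h.2.2.2.2.2⟩

theorem leaf_not_node {t t' : T} {a : A} (h : Leaf s t) (h' : Node s t' a)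
    (hc : ∀ i, child a i ∈ V s) (e : t.2.2 = t'.2.2) : False := by
  have hr := node_ray h' hc
  have e1 : t.2.2.1 = a.1 0 := (congrArg Prod.fst e).trans h'.2.2.1
  have e2 : flip t.2.2.1 t.2.1 = t'.2.2.2 := h.2.2.symm.trans (congrArg Prod.snd e)
  have m : ∀ i, a.2.1 i = t.2.1 := fun i =>
    congrArg DW.lev (leaf_D h.2.1 (e := hr.toPre.lam i) (by rw [e2, e1]; exact hr.lam_mem i))
  have := hr.mono 0
  rw [m, m] at this
  exact lt_irrefl _ this

theorem rank_unique : ∀ (k k' l l' : ℕ) (y x : X), (k, l, y, x) ∈ V s → (k', l', y, x) ∈ V s →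
    k = k' := by
  intro k
  induction k using Nat.strong_induction_on with
  | _ k ih =>
    intro k' l l' y x h h'
    rcases V_unfold h with h1 | ⟨a, h1, hc⟩ <;> rcases V_unfold h' with h2 | ⟨a', h2, hc'⟩
    · exact h1.1.trans h2.1.symm
    · exact (leaf_not_node h1 h2 hc' rfl).elim
    · exact (leaf_not_node h2 h1 hc rfl).elim
    · have r1 : Ray s x a.1 a.2.1 := node_ray h1 hc
      have r2 : Ray s x a'.1 a'.2.1 := node_ray h2 hc'
      obtain ⟨e1, e2⟩ := r1.unique r2 (h1.2.2.1.symm.trans h2.2.2.1)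
      have c1 := hc 0
      have c2 := hc' 0
      simp only [child, ← e1, ← e2] at c1 c2
      have k1 : k = a.2.2 0 + 1 := h1.1
      have k2 : k' = a'.2.2 0 + 1 := h2.1
      rw [k1, k2, ih _ (by omega) _ _ _ _ _ c1 c2]

theorem node_unique {t : T} {a a' : A} (h : Node s t a) (h' : Node s t a')
    (hc : ∀ i, child a i ∈ V s) (hc' : ∀ i, child a' i ∈ V s) : a = a' := by
  obtain ⟨e1, e2⟩ := (node_ray h hc).unique (node_ray h' hc') (h.2.2.1.symm.trans h'.2.2.1)
  refine Prod.ext e1 (Prod.ext e2 (funext fun i => ?_))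
  have c1 := hc i
  have c2 := hc' i
  simp only [child, ← e1, ← e2] at c1 c2
  exact rank_unique _ _ _ _ _ _ c1 c2

/-- normalised witness trees -/
def NWit (s : ℕ → X) (τ : List ℕ → T × A) : Prop :=
  Wit s τ ∧ ∀ σ, (τ σ).1.1 = 0 → (τ σ).2 = default ∧ ∀ i, (τ (σ ++ [i])).1 = (τ σ).1

theorem Wit.mem {τ : List ℕ → T × A} (h : Wit s τ) (σ : List ℕ) : (τ σ).1 ∈ V s :=
  ⟨fun ρ => τ (σ ++ ρ), fun ρ => by simpa only [List.append_assoc] using h (σ ++ ρ), by simp⟩

theorem Wit.node {τ : List ℕ → T × A} (h : Wit s τ) {σ : List ℕ} (h0 : (τ σ).1.1 ≠ 0) :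
    Node s (τ σ).1 (τ σ).2 ∧ (∀ i, (τ (σ ++ [i])).1 = child (τ σ).2 i) ∧
      ∀ i, child (τ σ).2 i ∈ V s := by
  rcases h σ with h1 | h1
  · exact absurd h1.1 h0
  · exact ⟨h1.1, h1.2, fun i => h1.2 i ▸ h.mem _⟩

theorem exists_nwit {t : T} (ht : t ∈ V s) : ∃ τ, NWit s τ ∧ (τ []).1 = t := by
  classical
  have h1 : ∀ t : T, ∃ a : A, (t.1 = 0 → a = default) ∧
      (t ∈ V s → t.1 ≠ 0 → Node s t a ∧ ∀ i, child a i ∈ V s) := by
    intro t
    by_cases h : t ∈ V s ∧ t.1 ≠ 0
    · rcases V_unfold h.1 with h2 | ⟨a, h2⟩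
      · exact absurd h2.1 h.2
      · exact ⟨a, fun h3 => absurd h3 h.2, fun _ _ => h2⟩
    · exact ⟨default, fun _ => rfl, fun h2 h3 => absurd ⟨h2, h3⟩ h⟩
  choose a ha1 ha2 using h1
  let nx : T → ℕ → T := fun t i => if t.1 = 0 then t else child (a t) i
  have hnx : ∀ σ : List ℕ, ∀ i, (σ ++ [i]).foldl nx t = nx (σ.foldl nx t) i := fun σ i => by
    rw [List.foldl_append]; rfl
  have hV : ∀ σ : List ℕ, σ.foldl nx t ∈ V s := by
    intro σ
    induction σ using List.reverseRecOn with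
    | nil => exact ht
    | append_singleton σ i ih =>
      rw [hnx]
      by_cases h : (σ.foldl nx t).1 = 0
      · simpa only [nx, if_pos h] using ih
      · simpa only [nx, if_neg h] using (ha2 _ ih h).2 i
  refine ⟨fun σ => (σ.foldl nx t, a (σ.foldl nx t)), ⟨fun σ => ?_, fun σ h => ⟨ha1 _ h, fun i => ?_⟩⟩,
    rfl⟩
  · by_cases h : (σ.foldl nx t).1 = 0
    · left
      rcases V_unfold (hV σ) with h2 | ⟨b, h2, -⟩
      · exact h2
      · exact absurd (h.symm.trans h2.1) (by omega)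
    · refine Or.inr ⟨(ha2 _ (hV σ) h).1, fun i => ?_⟩
      show (σ ++ [i]).foldl nx t = _
      rw [hnx]
      exact if_neg h
  · show (σ ++ [i]).foldl nx t = _
    rw [hnx]
    exact if_pos h

theorem nwit_inj : Set.InjOn (fun τ : List ℕ → T × A => (τ []).1.2.2) {τ | NWit s τ} := by
  intro τ h τ' h' e
  have e' : (τ []).1.2.2 = (τ' []).1.2.2 := e
  have h2 : ∀ σ, (τ σ).1 = (τ' σ).1 → (τ σ).2 = (τ' σ).2 := by
    intro σ e1
    by_cases h0 : (τ σ).1.1 = 0
    · rw [(h.2 σ h0).1, (h'.2 σ (e1 ▸ h0)).1]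
    · have n1 := h.1.node h0
      have n2 := h'.1.node (σ := σ) (e1 ▸ h0)
      exact node_unique n1.1 (e1 ▸ n2.1) n1.2.2 n2.2.2
  have h1 : ∀ σ, (τ σ).1 = (τ' σ).1 := by
    intro σ
    induction σ using List.reverseRecOn with
    | nil =>
      have v1 : ((τ []).1.1, (τ []).1.2.1, (τ []).1.2.2.1, (τ []).1.2.2.2) ∈ V s := h.1.mem []
      have v2 : ((τ' []).1.1, (τ' []).1.2.1, (τ' []).1.2.2.1, (τ' []).1.2.2.2) ∈ V s :=
        h'.1.mem []
      rw [← e'] at v2
      exact Prod.ext (rank_unique _ _ _ _ _ _ v1 v2)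
        (Prod.ext (Edge.lev_eq (Or.inl ⟨_, v1⟩) (Or.inl ⟨_, v2⟩)) e')
    | append_singleton σ i ih =>
      by_cases h0 : (τ σ).1.1 = 0
      · rw [(h.2 σ h0).2, (h'.2 σ (ih ▸ h0)).2, ih]
      · rw [(h.1.node h0).2.1, (h'.1.node (σ := σ) (ih ▸ h0)).2.1, h2 σ ih]
  exact funext fun σ => Prod.ext (h1 σ) (h2 σ (h1 σ))

theorem Gr_borel (s : ℕ → X) : MeasurableSet {p : X × X | (Gr s).Adj p.1 p.2} := by
  have hW : MeasurableSet {τ | NWit s τ} := by
    refine (measurableSet_setOfPred.mpr meas_wit).inter ?_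
    refine measurableSet_setOfPred.mpr (Measurable.forall fun σ => ?_)
    have ht : Measurable fun τ : List ℕ → T × A => (τ σ).1 := (measurable_pi_apply σ).fst
    have ha : Measurable fun τ : List ℕ → T × A => (τ σ).2 := (measurable_pi_apply σ).snd
    exact (meas_eqB ht.fst measurable_const).imp
      ((measurableSet_setOfPred.mp (measurableSet_eq_fun ha measurable_const)).and
        (Measurable.forall fun i => measurableSet_setOfPred.mp
          (measurableSet_eq_fun (measurable_pi_apply (σ ++ [i])).fst ht)))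
  have h1 := hW.image_of_measurable_injOn (measurable_pi_apply []).fst.snd.snd nwit_inj
  have h2 : (fun τ : List ℕ → T × A => (τ []).1.2.2) '' {τ | NWit s τ} =
      {p : X × X | ∃ l, Valid s l p.1 p.2} := by
    ext p
    constructor
    · rintro ⟨τ, h, rfl⟩
      exact ⟨_, _, h.1.mem []⟩
    · rintro ⟨l, k, h⟩
      obtain ⟨τ, h3, h4⟩ := exists_nwit h
      exact ⟨τ, h3, by simp only [h4]⟩
  rw [h2] at h1
  convert h1.union (measurable_swap h1) using 1
  ext p
  exact exists_or

/-- one tail sends all heads of a given length into a dense open set -/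
theorem exists_tail {U : Set X} (ho : IsOpen U) (hd : Dense U) (N : ℕ) :
    ∃ M, ∃ c : X, N ≤ M ∧ ∀ z : X, (∀ j, N ≤ j → j < M → z j = c j) → z ∈ U := by
  have key : ∀ P : List (Fin N → Bool), ∃ M, ∃ c : X, N ≤ M ∧ ∀ z : X,
      (fun j : Fin N => z j) ∈ P → (∀ j, N ≤ j → j < M → z j = c j) → z ∈ U := by
    intro P
    induction P with
    | nil => exact ⟨N, default, le_rfl, fun z h => by simp at h⟩
    | cons p P ih =>
      obtain ⟨M, c, h1, h2⟩ := ih
      obtain ⟨z0, a1, a2⟩ := hd.inter_open_nonempty _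
        (isOpen_agree M fun j => if h : j < N then p ⟨j, h⟩ else c j) ⟨_, Agree.refl _ _⟩
      obtain ⟨M', hM'⟩ := nhds_agree (ho.mem_nhds a2)
      refine ⟨M + M', z0, by omega, fun z hz h3 => ?_⟩
      rcases List.mem_cons.mp hz with hz | hz
      · refine hM' z fun j hj => ?_
        by_cases hjN : j < N
        · rw [(a1 j (by omega)).trans (dif_pos hjN), ← hz]
        · exact h3 j (by omega) (by omega)
      · refine h2 z hz fun j b1 b2 => ?_
        exact (h3 j b1 (by omega)).trans ((a1 j b2).trans (dif_neg (by omega)))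
  obtain ⟨M, c, h1, h2⟩ := key (Finset.univ : Finset (Fin N → Bool)).toList
  exact ⟨M, c, h1, fun z => h2 z (by simp)⟩

/-- a continuous self reduction of the basic graph into a dense `G_δ` set -/
theorem exists_self_reduction (hs : Dense' s) (U : ℕ → Set X) (ho : ∀ n, IsOpen (U n))
    (hd : ∀ n, Dense (U n)) : ∃ e : X → X, Continuous e ∧ Function.Injective e ∧
      (∀ x n, e x ∈ U n) ∧ ∀ x y, G0 s x y ↔ G0 s (e x) (e y) := by
  have step : ∀ (n N : ℕ) (u : X), ∃ m, N ≤ m ∧ Agree N (s m) u ∧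
      ∀ z : X, (∀ j, N ≤ j → j < m → z j = s m j) → z ∈ U n := by
    intro n N u
    obtain ⟨M, c, h1, h2⟩ := exists_tail (ho n) (hd n) N
    obtain ⟨m, h3, h4⟩ := hs (fun j => if j < N then u j else c j) M
    refine ⟨m, by omega, fun j hj => (h4 j (by omega)).trans (if_pos hj), fun z hz => h2 z ?_⟩
    intro j b1 b2
    exact (hz j b1 (by omega)).trans ((h4 j b2).trans (if_neg (by omega)))
  choose mf h1 h2 h3 using step
  let st : ℕ → ℕ × (X → X) := fun n => Nat.rec (0, id) (fun n t =>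
    (mf n t.1 (t.2 (s n)) + 1, fun x j => if j < t.1 then t.2 x j else
      if j = mf n t.1 (t.2 (s n)) then x n else s (mf n t.1 (t.2 (s n))) j)) n
  let N : ℕ → ℕ := fun n => (st n).1
  let E : ℕ → X → X := fun n => (st n).2
  let m : ℕ → ℕ := fun n => mf n (N n) (E n (s n))
  have N0 : N 0 = 0 := rfl
  have eN : ∀ n, N (n + 1) = m n + 1 := fun n => rfl
  have eE : ∀ n x j, E (n + 1) x j =
      if j < N n then E n x j else if j = m n then x n else s (m n) j := fun n x j => rfl
  have g1 : ∀ n, N n ≤ m n := fun n => h1 _ _ _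
  have g2 : ∀ n, Agree (N n) (s (m n)) (E n (s n)) := fun n => h2 _ _ _
  have g3 : ∀ n (z : X), (∀ j, N n ≤ j → j < m n → z j = s (m n) j) → z ∈ U n :=
    fun n => h3 _ _ _
  clear_value m E N st
  have Nm : StrictMono N := strictMono_nat_of_lt_succ fun n => by have := g1 n; rw [eN]; omega
  have stab : ∀ n t x, Agree (N n) (E (n + t) x) (E n x) := by
    intro n t x
    induction t with
    | zero => exact Agree.refl _ _
    | succ t ih =>
      intro j hj
      rw [← Nat.add_assoc, eE, if_pos (hj.trans_le (Nm.monotone (Nat.le_add_right n t))), ih j hj]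
  let e : X → X := fun x j => E (j + 1) x j
  have he : ∀ n x, Agree (N n) (e x) (E n x) := fun n x j hj => by
    have b1 := stab n (j + 1) x j hj
    have b2 := stab (j + 1) n x j (Nm.le_apply (x := j + 1))
    show E (j + 1) x j = _
    rw [← b1, ← b2, Nat.add_comm n (j + 1)]
  have blk : ∀ n x j, N n ≤ j → j ≤ m n → e x j = if j = m n then x n else s (m n) j :=
    fun n x j a b => by rw [he (n + 1) x j (by rw [eN]; omega), eE, if_neg (by omega)]
  clear_value e
  have pos : ∀ n x, e x (m n) = x n := fun n x => by rw [blk n x _ (g1 n) le_rfl, if_pos rfl]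
  have mm : StrictMono m := strictMono_nat_of_lt_succ fun n => by
    have := g1 (n + 1); rw [eN] at this; omega
  have find : ∀ j, ∃ n, N n ≤ j ∧ j ≤ m n := by
    intro j
    induction j with
    | zero => exact ⟨0, N0.le, Nat.zero_le _⟩
    | succ j ih =>
      obtain ⟨n, a, b⟩ := ih
      rcases b.lt_or_eq with b | b
      · exact ⟨n, by omega, b⟩
      · exact ⟨n + 1, by rw [eN]; omega, by have := g1 (n + 1); rw [eN] at this; omega⟩
  have dif : ∀ x y j, e x j ≠ e y j → ∃ n, j = m n ∧ x n ≠ y n := by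
    intro x y j h
    obtain ⟨n, a, b⟩ := find j
    rw [blk n x j a b, blk n y j a b] at h
    by_cases c : j = m n
    · exact ⟨n, c, by simpa [c] using h⟩
    · simp [c] at h
  have base : ∀ n, Agree (m n) (e (s n)) (s (m n)) := by
    intro n j hj
    by_cases c : j < N n
    · rw [he n _ j c, g2 n j c]
    · rw [blk n _ j (by omega) hj.le, if_neg hj.ne]
  have low : ∀ n x y, Agree n x y → Agree (m n) (e x) (e y) := by
    intro n x y h j hj
    by_contra c
    obtain ⟨i, rfl, hi⟩ := dif x y j c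
    exact hi (h i (mm.lt_iff_lt.mp hj))
  refine ⟨e, continuous_pi fun j => ?_, fun x y h => funext fun n => ?_, fun x n => ?_,
    fun x y => ⟨?_, ?_⟩⟩
  · exact continuous_of_agree (d := j + 1) fun a b h =>
      low (j + 1) a b h j (mm.le_apply (x := j + 1))
  · rw [← pos n x, ← pos n y, h]
  · exact g3 n _ fun j a b => by rw [blk n x j a b.le, if_neg b.ne]
  · rintro ⟨n, a, b, c⟩
    refine ⟨m n, fun j hj => ⟨?_, ?_⟩, by rwa [pos, pos], fun j hj => ?_⟩
    · rw [low n x (s n) (fun i hi => (a i hi).1) j hj, base n j hj]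
    · rw [low n y (s n) (fun i hi => (a i hi).2) j hj, base n j hj]
    · by_contra d
      obtain ⟨i, rfl, hi⟩ := dif x y j d
      exact hi (c i (mm.lt_iff_lt.mp hj))
  · rintro ⟨L, a, b, c⟩
    obtain ⟨n, rfl, hn⟩ := dif x y L b
    refine ⟨n, fun i hi => ⟨?_, ?_⟩, hn, fun i hi => ?_⟩
    · rw [← pos i x, (a _ (mm hi)).1, ← base n _ (mm hi), pos]
    · rw [← pos i y, (a _ (mm hi)).2, ← base n _ (mm hi), pos]
    · rw [← pos i x, ← pos i y, c _ (mm hi)]

theorem G0_tog {n : ℕ} {x : X} (h : Agree n x (s n)) : G0 s x (tog n x) :=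
  ⟨n, fun i hi => ⟨h i hi, (tog_ne x hi.ne).trans (h i hi)⟩, by rw [tog_self]; simp,
    fun i hi => (tog_ne x hi.ne').symm⟩

theorem no_reduction (hs : Dense' s) {f : X → X}
    (hf : ∀ U, IsOpen U → BaireMeasurableSet (f ⁻¹' U))
    (hred : ∀ x y, G0 s x y ↔ (Gr s).Adj (f x) (f y)) : False := by
  have hb : ∀ j, IsOpen {y : X | y j = true} := fun j =>
    show IsOpen ((fun y : X => y j) ⁻¹' {true}) from
      (isOpen_discrete ({true} : Set Bool)).preimage (continuous_apply j)
  choose O hO hres using fun j => (hf _ (hb j)).residualEq_isOpen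
  have hR : {x | ∀ j, (f x j = true ↔ x ∈ O j) ∧ x ∈ O j ∪ (closure (O j))ᶜ ∧
      ∃ m, j ≤ m ∧ Agree m x (s m)} ∈ residual X := by
    refine eventually_countable_forall.mpr fun j => ?_
    have a1 : O j ∪ (closure (O j))ᶜ ∈ residual X := by
      refine residual_of_dense_open ((hO j).union isClosed_closure.isOpen_compl) fun x => ?_
      by_cases h : x ∈ closure (O j)
      · exact closure_mono Set.subset_union_left h
      · exact subset_closure (Or.inr h)
    have a2 : {x : X | ∃ m, j ≤ m ∧ Agree m x (s m)} ∈ residual X := by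
      refine residual_of_dense_open ?_ fun x => mem_closure_iff_nhds.mpr fun t ht => ?_
      · simp only [Set.ofPred_exists]
        exact isOpen_iUnion fun m => (isOpen_const).inter (isOpen_agree m (s m))
      · obtain ⟨n, hn⟩ := nhds_agree ht
        obtain ⟨m, m1, m2⟩ := hs x (n + j)
        exact ⟨s m, hn _ (m2.mono (by omega)), m, by omega, Agree.refl _ _⟩
    filter_upwards [hres j, a1, a2] with x b1 b2 b3
    exact ⟨Iff.of_eq b1, b2, b3⟩
  obtain ⟨S, S1, S2, S3, S4⟩ := mem_residual_iff.mp hR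
  obtain ⟨U, hU⟩ := (S3.insert Set.univ).exists_eq_range (Set.insert_nonempty _ _)
  have hU' : ∀ n, IsOpen (U n) ∧ Dense (U n) := fun n => by
    rcases hU.ge ⟨n, rfl⟩ with h | h
    · rw [h]; exact ⟨isOpen_univ, dense_univ⟩
    · exact ⟨S1 _ h, S2 _ h⟩
  obtain ⟨e, e1, e2, e3, e4⟩ :=
    exists_self_reduction hs U (fun n => (hU' n).1) (fun n => (hU' n).2)
  have hin := fun x => S4 (show e x ∈ ⋂₀ S from fun t ht => by
    obtain ⟨n, rfl⟩ := hU.le (Set.mem_insert_of_mem _ ht)
    exact e3 x n)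
  have hc : Continuous (f ∘ e) := by
    refine continuous_pi fun j => continuous_discrete_rng.mpr fun b => ?_
    cases b
    · convert (isClosed_closure (s := O j)).isOpen_compl.preimage e1 using 1
      ext x
      obtain ⟨b1, b2, -⟩ := hin x j
      refine ⟨fun h => b2.resolve_left fun h' => ?_, fun h => ?_⟩
      · exact Bool.false_ne_true ((show f (e x) j = false from h).symm.trans (b1.mpr h'))
      · exact Bool.eq_false_iff.mpr fun h' => h (subset_closure (b1.mp h'))
    · convert (hO j).preimage e1 using 1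
      ext x
      exact (hin x j).1
  have hi : Function.Injective (f ∘ e) := by
    intro x y h
    have h' : f (e x) = f (e y) := h
    apply e2
    by_contra hne
    obtain ⟨j, hj⟩ := Function.ne_iff.mp hne
    have key : ∀ m, j < m → Agree m (e x) (s m) → ∀ i, j < i → e y i = tog m (e x) i := by
      intro m hm ha
      obtain ⟨n, a, -, c⟩ := (hred _ _).mpr (h' ▸ (hred _ _).mp (G0_tog ha))
      have d : e y j ≠ tog m (e x) j := by rw [tog_ne _ hm.ne]; exact hj.symm
      rcases lt_trichotomy j n with b | b | b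
      · exact absurd ((a j b).1.trans (a j b).2.symm) d
      · exact b ▸ c
      · exact absurd (c j b) d
    obtain ⟨m, m1, m2⟩ := (hin x (j + 1)).2.2
    obtain ⟨m', m1', m2'⟩ := (hin x (m + 1)).2.2
    have k1 := key m m1 m2 m m1
    have k2 := key m' (by omega) m2' m m1
    rw [tog_ne _ (by omega), k1, tog_self] at k2
    simp at k2
  obtain ⟨x, y, a, b⟩ := extra_edge hs hc hi fun x y h => (hred _ _).mp ((e4 x y).mp h)
  exact b ((e4 x y).mpr ((hred _ _).mpr a))

end Pool.Agent.P.MP_21cc92_lc
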