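import Pool.Agent.P.MP_21cc92_lc.Analytic

set_option autoImplicit false

namespace Pool.Agent.P.MP_21cc92_lc

open Filter MeasureTheory Topology

variable {s : ℕ → X}

/-- density of the sequence of strings -/
def Dense' (s : ℕ → X) : Prop := ∀ (u : X) (m : ℕ), ∃ n, m ≤ n ∧ Agree m (s n) u

/-- the basic graph -/
def G0 (s : ℕ → X) (x y : X) : Prop :=
  ∃ n, (∀ i, i < n → x i = s n i ∧ y i = s n i) ∧ x n ≠ y n ∧ ∀ i, n < i → x i = y i

theorem exists_dense' : ∃ s : ℕ → X, Dense' s := by
  refine ⟨fun n i => n.testBit i, fun u m => ?_⟩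
  have h : ∀ m, ∃ k, k < 2 ^ m ∧ ∀ i, i < m → k.testBit i = u i := by
    intro m
    induction m with
    | zero => exact ⟨0, by simp, fun i hi => absurd hi (Nat.not_lt_zero i)⟩
    | succ m ih =>
      obtain ⟨k, h1, h2⟩ := ih
      cases hu : u m
      · refine ⟨k, by rw [pow_succ]; omega, fun i hi => ?_⟩
        rcases (Nat.lt_succ_iff.mp hi).lt_or_eq with h | h
        · exact h2 i h
        · subst h; rw [hu]; exact Nat.testBit_lt_two_pow h1
      · refine ⟨2 ^ m + k, by rw [pow_succ]; omega, fun i hi => ?_⟩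
        rcases (Nat.lt_succ_iff.mp hi).lt_or_eq with h | h
        · rw [Nat.testBit_two_pow_add_gt h]; exact h2 i h
        · subst h; rw [hu, Nat.testBit_two_pow_add_eq, Nat.testBit_lt_two_pow h1]; rfl
  obtain ⟨k, _, h2⟩ := h m
  refine ⟨2 ^ m + k, ?_, fun i hi => ?_⟩
  · have := Nat.lt_two_pow_self (n := m); omega
  · show (2 ^ m + k).testBit i = u i
    rw [Nat.testBit_two_pow_add_gt hi]; exact h2 i hi

theorem nhds_agree {x : X} {S : Set X} (h : S ∈ 𝓝 x) : ∃ n, ∀ z, Agree n z x → z ∈ S := by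
  rw [nhds_pi, Filter.mem_pi] at h
  obtain ⟨I, hI, t, ht, hsub⟩ := h
  obtain ⟨n, hn⟩ := hI.bddAbove
  refine ⟨n + 1, fun z hz => hsub fun i hi => ?_⟩
  rw [hz i (Nat.lt_succ_of_le (hn hi))]
  exact mem_of_mem_nhds (ht i)

theorem isOpen_agree (n : ℕ) (x : X) : IsOpen {z | Agree n z x} := by
  have : {z | Agree n z x} = ⋂ j ∈ Set.Iio n, (fun z : X => z j) ⁻¹' {x j} := by
    ext z
    simp [Agree]
  rw [this]
  exact (Set.finite_Iio n).isOpen_biInter fun j _ =>
    (isOpen_discrete _).preimage (continuous_apply j)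

/-- toggling one coordinate -/
def tog (n : ℕ) (x : X) : X := Function.update x n (!x n)

theorem tog_self (n : ℕ) (x : X) : tog n x n = !x n := by simp [tog]
theorem tog_ne {n j : ℕ} (x : X) (h : j ≠ n) : tog n x j = x j := by simp [tog, h]
theorem tog_tog (n : ℕ) (x : X) : tog n (tog n x) = x := by
  funext j
  by_cases h : j = n
  · subst h; simp [tog_self]
  · rw [tog_ne _ h, tog_ne _ h]

theorem continuous_tog (n : ℕ) : Continuous (tog n) := by
  refine continuous_pi fun j => ?_
  by_cases h : j = n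
  · subst h
    simp only [tog_self]
    exact (continuous_of_discreteTopology (f := fun b : Bool => !b)).comp (continuous_apply j)
  · simp only [tog_ne _ h]
    exact continuous_apply j

theorem adj_tog {n : ℕ} {x : X} (h : Agree n x (s n)) : (Gr s).Adj x (tog n x) := by
  cases hx : x n
  · refine ⟨n, Or.inl ?_⟩
    have : tog n x = flip x n := by simp [tog, flip, hx]
    rw [this]
    exact Valid.leaf ⟨h, hx⟩
  · refine ⟨n, Or.inr ?_⟩
    have h1 : x = flip (tog n x) n := by
      funext j
      by_cases hj : j = n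
      · subst hj; rw [flip_self, hx]
      · rw [flip_ne _ hj, tog_ne _ hj]
    have h2 : IsWall s n (tog n x) :=
      ⟨fun j hj => (tog_ne x hj.ne).trans (h j hj), by rw [tog_self, hx]; rfl⟩
    have := Valid.leaf h2
    rwa [← h1] at this

theorem no_colouring (hs : Dense' s) :
    ¬ ∃ c : X → ℕ, Measurable c ∧ ∀ x y, (Gr s).Adj x y → c x ≠ c y := by
  rintro ⟨c, hc, hcol⟩
  have h1 : ∃ k, ¬ IsMeagre (c ⁻¹' {k}) := by
    by_contra h
    push Not at h
    have h2 : IsMeagre (⋃ k, c ⁻¹' {k}) := isMeagre_iUnion h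
    have h3 : (⋃ k, c ⁻¹' {k}) = Set.univ := by
      ext x; simp
    rw [h3] at h2
    exact not_isMeagre_of_isOpen isOpen_univ Set.univ_nonempty h2
  obtain ⟨k, hk⟩ := h1
  obtain ⟨O, hO, hres⟩ := (hc (measurableSet_singleton k)).residualEq_isOpen
  have hres' : {x | x ∈ c ⁻¹' {k} ↔ x ∈ O} ∈ residual X := by
    filter_upwards [hres] with x hx
    exact Iff.of_eq hx
  have hne : O.Nonempty := by
    by_contra h
    rw [Set.not_nonempty_iff_eq_empty] at h
    apply hk
    unfold IsMeagre
    filter_upwards [hres'] with x hx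
    rw [h] at hx
    exact fun h' => hx.mp h'
  obtain ⟨x0, hx0⟩ := hne
  obtain ⟨m, hm⟩ := nhds_agree (hO.mem_nhds hx0)
  obtain ⟨n, hn1, hn2⟩ := hs x0 m
  let e : X ≃ₜ X := ⟨⟨tog n, tog n, tog_tog n, tog_tog n⟩, continuous_tog n, continuous_tog n⟩
  have h2 : tog n ⁻¹' {x | x ∈ c ⁻¹' {k} ↔ x ∈ O} ∈ residual X :=
    tendsto_residual_of_isOpenMap e.continuous e.isOpenMap hres'
  obtain ⟨x, hx1, hx2, hx3⟩ := (dense_of_mem_residual (inter_mem hres' h2)).inter_open_nonempty
    _ (isOpen_agree n (s n)) ⟨s n, Agree.refl _ _⟩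
  have a1 : Agree m x x0 := (Agree.mono hx1 hn1).trans hn2
  have a2 : Agree m (tog n x) x0 := fun j hj =>
    (tog_ne x (lt_of_lt_of_le hj hn1).ne).trans (a1 j hj)
  have c1 : c x = k := hx2.mpr (hm _ a1)
  have c2 : c (tog n x) = k := hx3.mpr (hm _ a2)
  exact hcol _ _ (adj_tog hx1) (c1.trans c2.symm)

theorem modulus {f : X → X} (hf : Continuous f) (L : ℕ) :
    ∃ N, ∀ z z', Agree N z z' → Agree L (f z) (f z') := by
  have h1 : ∀ x : X, ∃ n, ∀ z, Agree n z x → Agree L (f z) (f x) := fun x =>
    nhds_agree (((isOpen_agree L (f x)).preimage hf).mem_nhds (Agree.refl _ _))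
  choose n hn using h1
  obtain ⟨t, ht⟩ := isCompact_univ.elim_finite_subcover (fun x : X => {z | Agree (n x) z x})
    (fun x => isOpen_agree _ _) fun x _ => Set.mem_iUnion.mpr ⟨x, Agree.refl _ _⟩
  refine ⟨t.sup n, fun z z' h => ?_⟩
  obtain ⟨x, hx, hz⟩ := Set.mem_iUnion₂.mp (ht (Set.mem_univ z))
  have hle : n x ≤ t.sup n := Finset.le_sup hx
  exact (hn x z hz).trans (hn x z' ((h.symm.mono hle).trans hz)).symm

/-- one step of the construction -/
theorem step_exists (hs : Dense' s) {f : X → X} (hf : Continuous f) (hi : Function.Injective f)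
    (N : ℕ) (u : X) (β : Bool) :
    ∃ n N' l : ℕ, ∃ u' : X, N ≤ n ∧ n < N' ∧ Agree N u' u ∧ Agree n u' (s n) ∧
      Agree l (f u') (f (tog n u')) ∧ f u' l = β ∧ f (tog n u') l = !β ∧
      ∀ z z', Agree N' z z' → Agree (l + 1) (f z) (f z') := by
  obtain ⟨n, h1, h2⟩ := hs u N
  have hne : f (s n) ≠ f (tog n (s n)) := by
    intro h
    have := congrFun (hi h) n
    rw [tog_self] at this
    revert this
    cases s n n <;> simp
  have hex : ∃ j, f (s n) j ≠ f (tog n (s n)) j := Function.ne_iff.mp hne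
  classical
  have h3 : Agree (Nat.find hex) (f (s n)) (f (tog n (s n))) := fun j hj => by
    simpa using Nat.find_min hex hj
  have h4 := Nat.find_spec hex
  obtain ⟨M, hM⟩ := modulus hf (Nat.find hex + 1)
  have hM' : ∀ z z', Agree (M + n + 1) z z' → Agree (Nat.find hex + 1) (f z) (f z') :=
    fun z z' h => hM z z' (h.mono (by omega))
  by_cases hb : f (s n) (Nat.find hex) = β
  · refine ⟨n, M + n + 1, Nat.find hex, s n, h1, by omega, h2, Agree.refl _ _, h3, hb, ?_, hM'⟩
    rw [hb] at h4
    revert h4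
    cases β <;> cases f (tog n (s n)) (Nat.find hex) <;> simp
  · have a1 : Agree n (tog n (s n)) (s n) := fun j hj => tog_ne _ hj.ne
    refine ⟨n, M + n + 1, Nat.find hex, tog n (s n), h1, by omega, (a1.mono h1).trans h2, a1,
      ?_, ?_, ?_, hM'⟩
    · rw [tog_tog]; exact h3.symm
    · revert h4 hb
      cases β <;> cases f (tog n (s n)) (Nat.find hex) <;> cases f (s n) (Nat.find hex) <;> simp
    · rw [tog_tog]
      revert hb
      cases β <;> cases f (s n) (Nat.find hex) <;> simp

/-- state of the construction: length, the two approximations, the counter -/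
structure St where
  N : ℕ
  u : X
  v : X
  r : ℕ

theorem extra_edge (hs : Dense' s) {f : X → X} (hf : Continuous f) (hi : Function.Injective f)
    (hom : ∀ x y, G0 s x y → (Gr s).Adj (f x) (f y)) :
    ∃ x y, (Gr s).Adj (f x) (f y) ∧ ¬ G0 s x y := by
  choose n N' l u' h1 h2 h3 h4 h5 h6 h7 h8 using step_exists hs hf hi
  let nv : St → X := fun t j => if j < t.N then t.v j else
    tog (n t.N t.u (decide (t.r = 0))) (u' t.N t.u (decide (t.r = 0))) j
  let nx : St → St := fun t => ⟨N' t.N t.u (decide (t.r = 0)), u' t.N t.u (decide (t.r = 0)),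
    nv t, if t.r = 0 then enc (f (nv t)) (l t.N t.u (decide (t.r = 0))) + 1 else t.r - 1⟩
  let st : ℕ → St := fun i => nx^[i] ⟨0, fun _ => false, fun _ => false, 0⟩
  have st_succ : ∀ i, st (i + 1) = nx (st i) := fun i => Function.iterate_succ_apply' nx i _
  let β : ℕ → Bool := fun i => decide ((st i).r = 0)
  let nn : ℕ → ℕ := fun i => n (st i).N (st i).u (β i)
  let ll : ℕ → ℕ := fun i => l (st i).N (st i).u (β i)
  have eN : ∀ i, (st (i + 1)).N = N' (st i).N (st i).u (β i) := fun i => by rw [st_succ]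
  have eu : ∀ i, (st (i + 1)).u = u' (st i).N (st i).u (β i) := fun i => by rw [st_succ]
  have ev : ∀ i, (st (i + 1)).v = nv (st i) := fun i => by rw [st_succ]
  have er : ∀ i, (st (i + 1)).r = if (st i).r = 0 then enc (f (st (i + 1)).v) (ll i) + 1
      else (st i).r - 1 := fun i => by rw [st_succ]
  have g1 : ∀ i, (st i).N ≤ nn i := fun i => h1 _ _ _
  have g2 : ∀ i, nn i < (st (i + 1)).N := fun i => by rw [eN]; exact h2 _ _ _
  have g3 : ∀ i, Agree (st i).N (st (i + 1)).u (st i).u := fun i => by rw [eu]; exact h3 _ _ _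
  have g4 : ∀ i, Agree (nn i) (st (i + 1)).u (s (nn i)) := fun i => by rw [eu]; exact h4 _ _ _
  have g5 : ∀ i, Agree (ll i) (f (st (i + 1)).u) (f (tog (nn i) (st (i + 1)).u)) :=
    fun i => by rw [eu]; exact h5 _ _ _
  have g6 : ∀ i, f (st (i + 1)).u (ll i) = β i := fun i => by rw [eu]; exact h6 _ _ _
  have g7 : ∀ i, f (tog (nn i) (st (i + 1)).u) (ll i) = !β i :=
    fun i => by rw [eu]; exact h7 _ _ _
  have g8 : ∀ i z z', Agree (st (i + 1)).N z z' → Agree (ll i + 1) (f z) (f z') :=
    fun i => by rw [eN]; exact h8 _ _ _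
  have g9 : ∀ i, Agree (st i).N (st (i + 1)).v (st i).v := fun i j hj => by
    rw [ev]; exact if_pos hj
  have g10 : ∀ i j, (st i).N ≤ j → (st (i + 1)).v j = tog (nn i) (st (i + 1)).u j :=
    fun i j hj => by rw [ev, eu]; exact if_neg (not_lt.mpr hj)
  have r0 : (st 0).r = 0 := rfl
  have N0 : (st 0).N = 0 := rfl
  clear_value st nn ll
  have Nmono : StrictMono fun i => (st i).N :=
    strictMono_nat_of_lt_succ fun i => (g1 i).trans_lt (g2 i)
  have Nle : ∀ i, i ≤ (st i).N := fun i => Nmono.le_apply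
  have lim : ∀ g : ℕ → X, (∀ i, Agree (st i).N (g (i + 1)) (g i)) →
      ∃ z : X, ∀ i, Agree (st i).N z (g i) := by
    intro g hg
    have a1 : ∀ i t, Agree (st i).N (g (i + t)) (g i) := by
      intro i t
      induction t with
      | zero => exact Agree.refl _ _
      | succ t ih => exact ((hg (i + t)).mono (Nmono.monotone (Nat.le_add_right i t))).trans ih
    refine ⟨fun j => g (j + 1) j, fun i j hj => ?_⟩
    have b1 := a1 i (j + 1) j hj
    have b2 := a1 (j + 1) i j (Nle (j + 1))
    show g (j + 1) j = g i j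
    rw [← b1, ← b2, Nat.add_comm i (j + 1)]
  obtain ⟨u, hu⟩ := lim (fun i => (st i).u) g3
  obtain ⟨v, hv⟩ := lim (fun i => (st i).v) g9
  have uv : ∀ i j, (st i).N ≤ j → j < (st (i + 1)).N → v j = tog (nn i) u j := by
    intro i j k1 k2
    rw [hv (i + 1) j k2, g10 i j k1]
    by_cases hj : j = nn i
    · subst hj; rw [tog_self, tog_self, hu (i + 1) _ k2]
    · rw [tog_ne _ hj, tog_ne _ hj, hu (i + 1) _ k2]
  let w : ℕ → X := fun i j => if j < (st i).N then u j else v j
  have w0 : w 0 = v := funext fun j => if_neg (by rw [N0]; exact Nat.not_lt_zero j)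
  have wu : ∀ i, Agree (st i).N (w i) u := fun i j hj => if_pos hj
  have wt : ∀ i, w i = tog (nn i) (w (i + 1)) := by
    intro i
    funext j
    have k1 := g1 i
    have k2 := g2 i
    by_cases hj : j = nn i
    · subst hj
      rw [tog_self, wu (i + 1) _ k2]
      show (if nn i < (st i).N then u (nn i) else v (nn i)) = _
      rw [if_neg (not_lt.mpr k1), uv i _ k1 k2, tog_self]
    · rw [tog_ne _ hj]
      show (if j < (st i).N then u j else v j) = if j < (st (i + 1)).N then u j else v j
      by_cases k3 : j < (st i).N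
      · rw [if_pos k3, if_pos (by omega)]
      · rw [if_neg k3]
        by_cases k4 : j < (st (i + 1)).N
        · rw [if_pos k4, uv i j (not_lt.mp k3) k4, tog_ne _ hj]
        · rw [if_neg k4]
  have w1 : ∀ i, Agree (st (i + 1)).N (w (i + 1)) (st (i + 1)).u :=
    fun i => (wu (i + 1)).trans (hu (i + 1))
  have w2 : ∀ i, Agree (st (i + 1)).N (w i) (tog (nn i) (st (i + 1)).u) := by
    intro i j hj
    rw [wt i]
    by_cases k : j = nn i
    · subst k; rw [tog_self, tog_self, w1 i _ hj]
    · rw [tog_ne _ k, tog_ne _ k, w1 i _ hj]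
  have p1 : ∀ i, f (w (i + 1)) (ll i) = β i := fun i =>
    (g8 i _ _ (w1 i) _ (Nat.lt_succ_self _)).trans (g6 i)
  have p2 : ∀ i, f (w i) (ll i) = !β i := fun i =>
    (g8 i _ _ (w2 i) _ (Nat.lt_succ_self _)).trans (g7 i)
  have p3 : ∀ i, Agree (ll i) (f (w i)) (f (w (i + 1))) := fun i =>
    ((g8 i _ _ (w2 i)).mono (Nat.le_succ _)).trans
      ((g5 i).symm.trans ((g8 i _ _ (w1 i)).symm.mono (Nat.le_succ _)))
  have p4 : ∀ i, Agree (ll i + 1) (f (w (i + 1))) (f u) := fun i => g8 i _ _ (wu (i + 1))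
  have lmono : ∀ i, ll i < ll (i + 1) := by
    intro i
    by_contra hc
    have k1 := p4 i (ll (i + 1)) (by omega)
    have k2 := p4 (i + 1) (ll (i + 1)) (Nat.lt_succ_self _)
    rw [p2 (i + 1)] at k1
    rw [p1 (i + 1), ← k1] at k2
    revert k2
    cases β (i + 1) <;> simp
  have adj : ∀ i, (Gr s).Adj (f (w i)) (f (w (i + 1))) := by
    intro i
    apply hom
    have k1 : Agree (nn i) (w (i + 1)) (s (nn i)) := ((w1 i).mono (g2 i).le).trans (g4 i)
    refine ⟨nn i, fun j hj => ⟨?_, k1 j hj⟩, ?_, fun j hj => ?_⟩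
    · rw [wt i, tog_ne _ hj.ne]; exact k1 j hj
    · conv_lhs => rw [wt i, tog_self]
      cases w (i + 1) (nn i) <;> simp
    · conv_lhs => rw [wt i, tog_ne _ hj.ne']
  have hbt : ∀ i, bt (fun i => f (w i)) ll i = β i := p1
  have pre : Pre s (f u) (fun i => f (w i)) ll := by
    refine ⟨⟨lmono, fun i => ?_, ?_⟩, fun i => ?_⟩
    · exact ((p4 i).symm.mono (Nat.le_succ _)).trans (p3 i).symm
    · rw [hbt]; exact decide_eq_true r0
    · obtain ⟨m, hm⟩ := adj i
      have hml : m = ll i := by
        have k1 : Agree m (f (w i)) (f (w (i + 1))) := by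
          rcases hm with hm | hm
          · exact hm.agree
          · exact hm.agree.symm
        have k2 : f (w i) m ≠ f (w (i + 1)) m := by
          rcases hm with hm | hm <;> rw [hm.dead_bit, hm.live_bit] <;> simp
        rcases lt_trichotomy m (ll i) with k | k | k
        · exact absurd (p3 i m k) k2
        · exact k
        · have k3 := k1 _ k
          rw [p1, p2] at k3
          revert k3
          cases β i <;> simp
      subst hml
      cases hb : β i
      · rw [dead_false ((hbt i).trans hb), live_false ((hbt i).trans hb)]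
        rcases hm with hm | hm
        · have := hm.live_bit
          rw [p1, hb] at this
          exact absurd this (by simp)
        · exact hm
      · rw [dead_true ((hbt i).trans hb), live_true ((hbt i).trans hb)]
        rcases hm with hm | hm
        · exact hm
        · have := hm.dead_bit
          rw [p1, hb] at this
          exact absurd this (by simp)
  have code : Code (fun i => f (w i)) ll := by
    intro i hb
    rw [hbt] at hb
    have k0 : (st i).r = 0 := of_decide_eq_true hb
    have k1 : enc (f (w 0)) (ll i) = enc (f (st (i + 1)).v) (ll i) := by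
      rw [w0]
      exact enc_congr ((g8 i _ _ (hv (i + 1))).mono (Nat.le_succ _))
    have k2 : ∀ t, t ≤ enc (f (w 0)) (ll i) + 1 →
        (st (i + 1 + t)).r = enc (f (w 0)) (ll i) + 1 - t := by
      intro t
      induction t with
      | zero => intro _; rw [er i, if_pos k0, k1]; rfl
      | succ t ih =>
        intro ht
        have k3 := ih (by omega)
        rw [← Nat.add_assoc, er (i + 1 + t), if_neg (by omega), k3]
        omega
    refine ⟨fun t ht => ?_, ?_⟩
    · rw [hbt]
      have ht' : t ≤ enc (f (w 0)) (ll i) := ht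
      exact decide_eq_false (by rw [k2 t (by omega)]; omega)
    · rw [hbt]
      exact decide_eq_true (by rw [k2 _ le_rfl]; omega)
  have hval := pre.valid code
  refine ⟨w 0, u, ⟨_, Or.inl hval⟩, ?_⟩
  rintro ⟨m, k1, -, k3⟩
  have d : ∀ i, w 0 (nn i) ≠ u (nn i) := by
    intro i
    rw [w0, uv i _ (g1 i) (g2 i), tog_self]
    cases u (nn i) <;> simp
  have e : ∀ i, nn i = m := by
    intro i
    rcases lt_trichotomy (nn i) m with k | k | k
    · exact absurd ((k1 _ k).1.trans (k1 _ k).2.symm) (d i)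
    · exact k
    · exact absurd (k3 _ k) (d i)
  have := (g2 0).trans_le (g1 1)
  rw [e 0, e 1] at this
  exact lt_irrefl _ this

end Pool.Agent.P.MP_21cc92_lc
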