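import Pool.Agent.P.MP_21cc92_lc.Valid

set_option autoImplicit false

namespace Pool.Agent.P.MP_21cc92_lc

open Filter

variable {s : ℕ → X}

theorem D_sep {a b : X} {e : DW s} (h : e ∈ D s a b) : ¬ (a ∈ e.H ↔ b ∈ e.H) :=
  fun h' => h.1 (h'.mpr h.2)

theorem D_sep' {a b : X} {e : DW s} (h : e ∈ D s a b) : ¬ (b ∈ e.H ↔ a ∈ e.H) :=
  fun h' => h.1 (h'.mp h.2)

theorem exists_enter {w : ℕ → X} {S : Set X} {i : ℕ} (hi : w i ∉ S) :
    ∀ t, w (i + t) ∈ S → ∃ j, i ≤ j ∧ j < i + t ∧ w j ∉ S ∧ w (j + 1) ∈ S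
  | 0, h => absurd h hi
  | t + 1, h => by
    by_cases h1 : w (i + t) ∈ S
    · obtain ⟨j, h2, h3, h4⟩ := exists_enter hi t h1
      exact ⟨j, h2, by omega, h4⟩
    · exact ⟨i + t, Nat.le_add_right _ _, by omega, h1, h⟩

theorem exists_enter' {w : ℕ → X} {S : Set X} {i k : ℕ} (hik : i ≤ k) (hi : w i ∉ S)
    (hk : w k ∈ S) : ∃ j, i ≤ j ∧ j < k ∧ w j ∉ S ∧ w (j + 1) ∈ S := by
  obtain ⟨t, rfl⟩ := Nat.exists_eq_add_of_le hik
  exact exists_enter hi t hk

/-- the first wall of a valid edge -/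
def mu {l : ℕ} {y : X} (h : IsWall s l y) : DW s := ⟨l, y, h, true⟩

theorem leaf_mu {l : ℕ} {y : X} (h : IsWall s l y) : mu h ∈ D s y (flip y l) :=
  ⟨fun h' => Bool.false_ne_true (((mu h).pt_mem_H.mp h').symm), (mu h).flip_mem_H.mpr rfl⟩

theorem leaf_D {l : ℕ} {y : X} (h : IsWall s l y) {e : DW s} (he : e ∈ D s y (flip y l)) :
    e = mu h := by
  refine D_same he (leaf_mu h) ?_
  by_contra hs
  exact D_sep he (DW.endpoints (e := mu h) hs)

theorem Pre.lim_iff {x : X} {w : ℕ → X} {l : ℕ → ℕ} (h : Pre s x w l) (e : DW s) {t : ℕ}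
    (ht : e.lev < t) : w t ∈ e.H ↔ x ∈ e.H :=
  e.mem_H_congr (Eventually.of_forall fun d =>
    h.low_tail e.pt (ht.trans_le (h.toShape.le_l t)) d)

theorem Pre.exists_step {x : X} {w : ℕ → X} {l : ℕ → ℕ} (h : Pre s x w l) {e : DW s}
    (he : e ∈ D s (w 0) x) : ∃ i, e ∈ D s (w i) (w (i + 1)) := by
  obtain ⟨j, -, -, h1, h2⟩ := exists_enter' (Nat.zero_le (e.lev + 1)) he.1
    ((h.lim_iff e (Nat.lt_succ_self _)).mpr he.2)
  exact ⟨j, h1, h2⟩

theorem Pre.step_lev_le {x : X} {w : ℕ → X} {l : ℕ → ℕ} (h : Pre s x w l) {i : ℕ} {e : DW s}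
    (he : ¬ (w i ∈ e.H ↔ w (i + 1) ∈ e.H)) : l i ≤ e.lev :=
  (h.ch i).lev_le fun h' => he
    (step_of_symm (R := fun a b => a ∈ e.H ↔ b ∈ e.H) (fun _ _ => Iff.symm) h')

theorem Valid.struct {l : ℕ} {y x : X} (h : Valid s l y x) :
    mu h.wall ∈ D s y x ∧ ∀ e ∈ D s y x, e = mu h.wall ∨ l < e.lev := by
  have key := Valid.induct (s := s) l (fun l' y x => l' ≤ l → ∀ hw : IsWall s l' y,
    mu hw ∈ D s y x ∧ ∀ e ∈ D s y x, e = mu hw ∨ l' < e.lev) ?_ ?_ ?_ l y x h
  · exact key le_rfl h.wall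
  · intro l' y x _ h1 h2
    omega
  · intro l' y hw _ _ _
    exact ⟨leaf_mu hw, fun e he => Or.inl (leaf_D hw he)⟩
  · intro x w l' hr hl ih _ hw
    have h0 := ih 0 hl
    rw [dead_true hr.b0, live_true hr.b0] at h0
    refine ⟨hr.step_subset 0 (h0 hw).1, fun e he => ?_⟩
    obtain ⟨i, hi⟩ := hr.toPre.exists_step he
    rcases Nat.eq_zero_or_pos i with h1 | h1
    · subst h1
      exact (h0 hw).2 e hi
    · exact Or.inr ((hr.toShape.strictMono h1).trans_le (hr.toPre.step_lev_le (D_sep hi)))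

theorem Valid.mu_mem {l : ℕ} {y x : X} (h : Valid s l y x) : mu h.wall ∈ D s y x := h.struct.1

theorem Valid.mu_le {l : ℕ} {y x : X} (h : Valid s l y x) {e : DW s} (he : e ∈ D s y x) :
    mu h.wall ≤ e := by
  rcases D_lt_or he h.mu_mem with h1 | h1
  · exact absurd (DW.pt_mem_of_lt h1) he.1
  · exact h1

/-- the first wall of the `i`-th step, directed towards the limit -/
def Pre.lam {x : X} {w : ℕ → X} {l : ℕ → ℕ} (h : Pre s x w l) (i : ℕ) : DW s :=
  ⟨l i, dead w l i, (h.ch i).wall, bt w l i⟩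

section
variable {x : X} {w : ℕ → X} {l : ℕ → ℕ}

@[simp] theorem Pre.lam_lev (h : Pre s x w l) (i : ℕ) : (h.lam i).lev = l i := rfl
@[simp] theorem Pre.lam_pt (h : Pre s x w l) (i : ℕ) : (h.lam i).pt = dead w l i := rfl
@[simp] theorem Pre.lam_dir (h : Pre s x w l) (i : ℕ) : (h.lam i).dir = bt w l i := rfl

theorem Pre.valid_true (h : Pre s x w l) {i : ℕ} (hb : bt w l i = true) :
    Valid s (l i) (w i) (w (i + 1)) := by
  have := h.ch i
  rwa [dead_true hb, live_true hb] at this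

theorem Pre.valid_false (h : Pre s x w l) {i : ℕ} (hb : bt w l i = false) :
    Valid s (l i) (w (i + 1)) (w i) := by
  have := h.ch i
  rwa [dead_false hb, live_false hb] at this

theorem Pre.lam_true (h : Pre s x w l) {i : ℕ} (hb : bt w l i = true) :
    h.lam i = mu (h.valid_true hb).wall := DW.ext rfl (dead_true hb) hb

theorem Pre.lam_false (h : Pre s x w l) {i : ℕ} (hb : bt w l i = false) :
    h.lam i = (mu (h.valid_false hb).wall).star := DW.ext rfl (dead_false hb) hb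

theorem Pre.lam_mem (h : Pre s x w l) (i : ℕ) : h.lam i ∈ D s (w i) (w (i + 1)) := by
  cases hb : bt w l i
  · rw [h.lam_false hb]; exact star_mem_D.mpr (h.valid_false hb).mu_mem
  · rw [h.lam_true hb]; exact (h.valid_true hb).mu_mem

theorem Pre.lam_min (h : Pre s x w l) {i : ℕ} (hb : bt w l i = true) {e : DW s}
    (he : e ∈ D s (w i) (w (i + 1))) : h.lam i ≤ e := by
  rw [h.lam_true hb]; exact (h.valid_true hb).mu_le he

theorem Pre.lam_max (h : Pre s x w l) {i : ℕ} (hb : bt w l i = false) {e : DW s}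
    (he : e ∈ D s (w i) (w (i + 1))) : e ≤ h.lam i := by
  rw [h.lam_false hb, ← DW.star_le_star, DW.star_star]
  exact (h.valid_false hb).mu_le (star_mem_D.mpr he)

theorem Pre.step_struct (h : Pre s x w l) {i : ℕ} {e : DW s}
    (he : e ∈ D s (w i) (w (i + 1))) : e = h.lam i ∨ l i < e.lev := by
  cases hb : bt w l i
  · rcases (h.valid_false hb).struct.2 e.star (star_mem_D.mpr he) with h1 | h1
    · left; rw [h.lam_false hb, ← h1, DW.star_star]
    · exact Or.inr h1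
  · rw [h.lam_true hb]; exact (h.valid_true hb).struct.2 e he

theorem Ray.lam_mem (h : Ray s x w l) (i : ℕ) : h.toPre.lam i ∈ D s (w 0) x :=
  h.step_subset i (h.toPre.lam_mem i)

theorem Ray.mem_mono (h : Ray s x w l) {e : DW s} (he : w 0 ∉ e.H) {i j : ℕ} (hij : i ≤ j)
    (hi : w i ∈ e.H) : w j ∈ e.H := by
  by_contra hj
  obtain ⟨t, -, -, h1, h2⟩ := exists_enter' (S := e.star.H) hij
    (fun h' => (e.mem_H_star _).mp h' hi) ((e.mem_H_star _).mpr hj)
  exact (h.step_subset t ⟨h1, h2⟩).1 ((e.mem_H_star _).mpr he)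

theorem Ray.step_lt (h : Ray s x w l) {i j : ℕ} (hij : i < j) {d e : DW s}
    (hd : d ∈ D s (w i) (w (i + 1))) (he : e ∈ D s (w j) (w (j + 1))) : d < e :=
  D_lt_of_mem (h.step_subset i hd) (h.step_subset j he)
    (h.mem_mono (h.step_subset i hd).1 hij hd.2) he.1

theorem Ray.lam_lt (h : Ray s x w l) {i j : ℕ} (hij : i < j) :
    h.toPre.lam i < h.toPre.lam j := h.step_lt hij (h.toPre.lam_mem i) (h.toPre.lam_mem j)

theorem Ray.cofinal (h : Ray s x w l) {e : DW s} (he : e ∈ D s (w 0) x) :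
    ∃ N, ∀ i, N ≤ i → e < h.toPre.lam i := by
  obtain ⟨j, hj⟩ := h.toPre.exists_step he
  exact ⟨j + 1, fun i hi => h.step_lt hi hj (h.toPre.lam_mem i)⟩

end

/-- forward parse -/
def Fw (s : ℕ → X) (C : Set (DW s)) (e : DW s) : Prop :=
  ∃ x w l, ∃ h : Ray s x w l, ∃ i, 0 < i ∧ D s (w 0) x ⊆ C ∧ e = h.toPre.lam i

/-- backward parse -/
def Bw (s : ℕ → X) (C : Set (DW s)) (e : DW s) : Prop :=
  ∃ x w l, ∃ h : Ray s x w l, ∃ i, 0 < i ∧ D s x (w 0) ⊆ C ∧ e = (h.toPre.lam i).star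

theorem Fw.mono {C C' : Set (DW s)} {e : DW s} (h : Fw s C e) (hC : C ⊆ C') : Fw s C' e := by
  obtain ⟨x, w, l, h, i, h1, h2, h3⟩ := h
  exact ⟨x, w, l, h, i, h1, h2.trans hC, h3⟩

theorem Bw.mono {C C' : Set (DW s)} {e : DW s} (h : Bw s C e) (hC : C ⊆ C') : Bw s C' e := by
  obtain ⟨x, w, l, h, i, h1, h2, h3⟩ := h
  exact ⟨x, w, l, h, i, h1, h2.trans hC, h3⟩

theorem D_subset_swap {a b a' b' : X} (h : D s a b ⊆ D s a' b') : D s b a ⊆ D s b' a' := by
  intro e he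
  have h1 : e.star ∈ D s a b := star_mem_D.mpr he
  exact star_mem_D.mp (h h1)

theorem Fw.star {a b : X} {e : DW s} (h : Fw s (D s b a) e.star) : Bw s (D s a b) e := by
  obtain ⟨x, w, l, h, i, h1, h2, h3⟩ := h
  exact ⟨x, w, l, h, i, h1, D_subset_swap h2, by rw [← h3, DW.star_star]⟩

theorem Bw.star {a b : X} {e : DW s} (h : Bw s (D s b a) e.star) : Fw s (D s a b) e := by
  obtain ⟨x, w, l, h, i, h1, h2, h3⟩ := h
  refine ⟨x, w, l, h, i, h1, D_subset_swap h2, ?_⟩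
  have := congrArg DW.star h3
  simpa using this

theorem Valid.parse {l : ℕ} {y x : X} (h : Valid s l y x) {e : DW s} (he : e ∈ D s y x) :
    e.lev = l ∨ Fw s (D s y x) e ∨ Bw s (D s y x) e := by
  refine Valid.induct (s := s) e.lev (fun l y x => ∀ e' : DW s, e'.lev = e.lev → e' ∈ D s y x →
    e'.lev = l ∨ Fw s (D s y x) e' ∨ Bw s (D s y x) e') ?_ ?_ ?_ l y x h e rfl he
  · intro l y x hv hL e' h1 h2
    have := hv.lev_le (D_sep h2)
    omega
  · intro l y hw _ e' _ h2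
    left; rw [leaf_D hw h2]; rfl
  · intro x w l hr _ ih e' h1 h2
    obtain ⟨i, hi⟩ := hr.toPre.exists_step h2
    have h3 : e'.lev = l i ∨ Fw s (D s (w i) (w (i + 1))) e' ∨
        Bw s (D s (w i) (w (i + 1))) e' := by
      have h4 := ih i
      cases hb : bt w l i
      · rw [dead_false hb, live_false hb] at h4
        rcases h4 e'.star h1 (star_mem_D.mpr hi) with h5 | h5 | h5
        · exact Or.inl h5
        · exact Or.inr (Or.inr h5.star)
        · exact Or.inr (Or.inl h5.star)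
      · rw [dead_true hb, live_true hb] at h4
        exact h4 e' h1 hi
    rcases h3 with h3 | h3 | h3
    · rcases Nat.eq_zero_or_pos i with h0 | h0
      · subst h0; exact Or.inl h3
      · right; left
        refine ⟨x, w, l, hr, i, h0, subset_rfl, ?_⟩
        rcases hr.toPre.step_struct hi with h5 | h5
        · exact h5
        · omega
    · exact Or.inr (Or.inl (h3.mono (hr.step_subset i)))
    · exact Or.inr (Or.inr (h3.mono (hr.step_subset i)))

/-- unoriented valid edges -/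
def Edge (s : ℕ → X) (l : ℕ) (a b : X) : Prop := Valid s l a b ∨ Valid s l b a

theorem Edge.symm {l : ℕ} {a b : X} (h : Edge s l a b) : Edge s l b a := Or.symm h

theorem Edge.parse {l : ℕ} {a b : X} (h : Edge s l a b) {e : DW s} (he : e ∈ D s a b) :
    e.lev = l ∨ Fw s (D s a b) e ∨ Bw s (D s a b) e := by
  rcases h with h | h
  · exact h.parse he
  · rcases h.parse (star_mem_D.mpr he) with h5 | h5 | h5
    · exact Or.inl h5
    · exact Or.inr (Or.inr h5.star)
    · exact Or.inr (Or.inl h5.star)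

theorem Pre.edge {x : X} {w : ℕ → X} {l : ℕ → ℕ} (h : Pre s x w l) (i : ℕ) :
    Edge s (l i) (w i) (w (i + 1)) := by
  cases hb : bt w l i
  · exact Or.inr (h.valid_false hb)
  · exact Or.inl (h.valid_true hb)

theorem Pre.step_parse {x : X} {w : ℕ → X} {l : ℕ → ℕ} (h : Pre s x w l) {i : ℕ} {e : DW s}
    (he : e ∈ D s (w i) (w (i + 1))) :
    e = h.lam i ∨ Fw s (D s (w i) (w (i + 1))) e ∨ Bw s (D s (w i) (w (i + 1))) e := by
  rcases (h.edge i).parse he with h1 | h1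
  · rcases h.step_struct he with h2 | h2
    · exact Or.inl h2
    · omega
  · exact Or.inr h1

/-- a wall of lower level with the same dead end -/
def Low (C : Set (DW s)) (e : DW s) : Prop := ∃ e' ∈ C, e'.lev < e.lev ∧ e'.pt = e.pt

theorem Low.star {a b : X} {e : DW s} (h : Low (D s a b) e) : Low (D s b a) e.star := by
  obtain ⟨e', h1, h2, h3⟩ := h
  exact ⟨e'.star, star_mem_D.mpr h1, h2, h3⟩

theorem Low.local {a b a' b' : X} {e d1 d2 : DW s} (h : Low (D s a b) e) (h1 : d1 < e)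
    (h2 : e < d2) (m1 : d1 ∈ D s a b) (m2 : d2 ∈ D s a b) (m1' : d1 ∈ D s a' b')
    (m2' : d2 ∈ D s a' b') : Low (D s a' b') e := by
  obtain ⟨e', h3, h4, h5⟩ := h
  refine ⟨e', D_convex m1' m2' ?_ ?_, h4, h5⟩
  · rcases D_lt_or h3 m1 with h6 | h6
    · exact absurd (h5 ▸ DW.pt_mem_of_lt h1) (DW.pt_not_mem_of_lt h6)
    · exact h6
  · rcases D_lt_or m2 h3 with h6 | h6
    · exact absurd (h5 ▸ DW.pt_mem_of_lt h6) (DW.pt_not_mem_of_lt h2)
    · exact h6

section
variable {x : X} {w : ℕ → X} {l : ℕ → ℕ}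

theorem Ray.low_true (h : Ray s x w l) {i : ℕ} (hi : 0 < i) (hb : bt w l i = true)
    {C : Set (DW s)} (hC : D s (w 0) x ⊆ C) : Low C (h.toPre.lam i) := by
  obtain ⟨j, rfl⟩ : ∃ j, i = j + 1 := ⟨i - 1, by omega⟩
  have hj : bt w l j = false := by
    by_contra hj
    have := (h.code j (by simpa using hj)).1 0 (Nat.zero_le _)
    rw [hb] at this
    exact Bool.false_ne_true this.symm
  refine ⟨h.toPre.lam j, hC (h.lam_mem j), h.mono j, ?_⟩
  simp only [Pre.lam_pt, dead_false hj, dead_true hb]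

theorem Ray.low_false (h : Ray s x w l) {i : ℕ} (hb : bt w l i = false) {a b : X}
    (hC : D s (w 0) x ⊆ D s a b) : ¬ Low (D s a b) (h.toPre.lam i) := by
  rintro ⟨e', h1, h2, h3⟩
  simp only [Pre.lam_lev, Pre.lam_pt, dead_false hb] at h2 h3
  have hd := hC (h.lam_mem i)
  have hne : e' ≠ h.toPre.lam i := fun he => by rw [he] at h2; exact lt_irrefl _ h2
  rcases D_lt_or h1 hd with h4 | h4
  · exact DW.pt_not_mem_of_lt h4 (h3 ▸ (h.toPre.lam_mem i).2)
  · have h5 : h.toPre.lam i < e' := lt_of_le_of_ne h4 hne.symm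
    rcases D_lt_or (hC (h.lam_mem (i + 1))) h1 with h6 | h6
    · exact (h.toPre.lam_mem (i + 1)).1 (h3 ▸ DW.pt_mem_of_lt h6)
    · have h7 : e' ∈ D s (w 0) x := D_convex (h.lam_mem i) (h.lam_mem (i + 1)) h4 h6
      obtain ⟨j, hj⟩ := h.toPre.exists_step h7
      rcases lt_or_ge j i with h8 | h8
      · exact lt_asymm h5 (h.step_lt h8 hj (h.toPre.lam_mem i))
      · have h9 := h.toPre.step_lev_le (D_sep hj)
        have h10 := h.toShape.strictMono.monotone h8
        omega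

end

/-- the visible form of a forward parse -/
def Fwd (C : Set (DW s)) (e : DW s) : Prop := Low C e ↔ e.dir = true

theorem Fw.fwd {a b : X} {e : DW s} (h : Fw s (D s a b) e) : Fwd (D s a b) e := by
  obtain ⟨x, w, l, h, i, h1, h2, rfl⟩ := h
  cases hb : bt w l i
  · exact ⟨fun h' => absurd h' (h.low_false hb h2), fun h' => by simp [hb] at h'⟩
  · exact ⟨fun _ => hb, fun _ => h.low_true h1 hb h2⟩

theorem Bw.not_fwd {a b : X} {e : DW s} (h : Bw s (D s a b) e) : ¬ Fwd (D s a b) e := by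
  have h1 : Fw s (D s b a) e.star := Bw.star (by simpa using h)
  have h2 := h1.fwd
  intro h3
  have h4 : Low (D s a b) e ↔ Low (D s b a) e.star :=
    ⟨Low.star, fun h => by simpa using h.star⟩
  unfold Fwd at h2 h3
  rw [← h4, h3] at h2
  revert h2
  simp only [DW.star_dir]
  cases e.dir <;> simp

theorem Fwd.local {a b a' b' : X} {e d1 d2 : DW s} (h : Fwd (D s a b) e) (h1 : d1 < e)
    (h2 : e < d2) (m1 : d1 ∈ D s a b) (m2 : d2 ∈ D s a b) (m1' : d1 ∈ D s a' b')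
    (m2' : d2 ∈ D s a' b') : Fwd (D s a' b') e :=
  Iff.trans ⟨fun h' => h'.local h1 h2 m1' m2' m1 m2, fun h' => h'.local h1 h2 m1 m2 m1' m2'⟩ h

def Rec (C : Set (DW s)) (d k : DW s) : Prop :=
  k ∈ C ∧ d < k ∧ (∀ r, d < r → r < k → k.lev < r.lev) ∧ Fwd C k

def Next (C : Set (DW s)) (d k : DW s) : Prop := Rec C d k ∧ ∀ k', Rec C d k' → ¬ k' < k

theorem Next.transfer {a b a' b' : X} {d k k' far : DW s} (h : Next (D s a b) d k)
    (h' : Next (D s a' b') d k') (md : d ∈ D s a b) (md' : d ∈ D s a' b')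
    (mf : far ∈ D s a b) (mf' : far ∈ D s a' b') (hk : k < far) : k = k' := by
  obtain ⟨⟨h1, h2, h3, h4⟩, h5⟩ := h
  obtain ⟨⟨h1', h2', h3', h4'⟩, h5'⟩ := h'
  have m1 : k ∈ D s a' b' := D_convex md' mf' h2.le hk.le
  have r1 : Rec (D s a' b') d k := ⟨m1, h2, h3, h4.local h2 hk md mf md' mf'⟩
  rcases D_lt_or m1 h1' with h6 | h6
  · exact absurd h6 (h5' k r1)
  · rcases h6.lt_or_eq with h7 | h7
    · have m2 : k' ∈ D s a b := D_convex md h1 h2'.le h6
      exact absurd h7 (h5 k' ⟨m2, h2', h3', h4'.local h2' h7 md' m1 md h1⟩)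
    · exact h7.symm

theorem Ray.next {x : X} {w : ℕ → X} {l : ℕ → ℕ} (h : Ray s x w l) {i : ℕ}
    (hb : bt w l i = false) {a b : X} (hC : D s (w 0) x ⊆ D s a b) :
    Next (D s a b) (h.toPre.lam i) (h.toPre.lam (i + 1)) := by
  have btw : ∀ r, h.toPre.lam i < r → r < h.toPre.lam (i + 1) →
      r ∈ D s (w (i + 1)) (w (i + 1 + 1)) := by
    intro r h1 h2
    obtain ⟨j, hj⟩ := h.toPre.exists_step
      (D_convex (h.lam_mem i) (h.lam_mem (i + 1)) h1.le h2.le)
    rcases lt_trichotomy j (i + 1) with h3 | h3 | h3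
    · rcases (Nat.lt_succ_iff.mp h3).lt_or_eq with h4 | h4
      · exact absurd (h.step_lt h4 hj (h.toPre.lam_mem i)) (lt_asymm h1)
      · subst h4
        exact absurd (h.toPre.lam_max hb hj) (not_le_of_gt h1)
    · subst h3; exact hj
    · exact absurd (h.step_lt h3 (h.toPre.lam_mem (i + 1)) hj) (lt_asymm h2)
  refine ⟨⟨hC (h.lam_mem _), h.lam_lt (Nat.lt_succ_self i), fun r h1 h2 => ?_, ?_⟩, ?_⟩
  · rcases h.toPre.step_struct (btw r h1 h2) with h3 | h3
    · exact absurd h3 h2.ne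
    · exact h3
  · exact Fw.fwd ⟨x, w, l, h, i + 1, Nat.succ_pos i, hC, rfl⟩
  · rintro k ⟨_, h2, h3, h4⟩ h5
    have h6 := btw k h2 h5
    have hsub : D s (w (i + 1)) (w (i + 1 + 1)) ⊆ D s a b := (h.step_subset _).trans hC
    rcases h.toPre.step_parse h6 with h7 | h7 | h7
    · exact h5.ne h7
    · obtain ⟨x', w', l', h', j, hj, h8, rfl⟩ := h7
      have h9 := h3 (h'.toPre.lam 0)
        (h.step_lt (Nat.lt_succ_self i) (h.toPre.lam_mem i) (h8 (h'.lam_mem 0))) (h'.lam_lt hj)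
      have h10 := h'.toShape.strictMono hj
      simp only [Pre.lam_lev] at h9
      omega
    · exact (h7.mono hsub).not_fwd h4

end Pool.Agent.P.MP_21cc92_lc
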