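import Pool.Agent.P.MP_21cc92_lc.Parse

set_option autoImplicit false

namespace Pool.Agent.P.MP_21cc92_lc

open Filter

variable {s : ℕ → X}

theorem Code.exists_true {w : ℕ → X} {l : ℕ → ℕ} (h : Code w l) (h0 : bt w l 0 = true) :
    ∀ N, ∃ i, N ≤ i ∧ bt w l i = true
  | 0 => ⟨0, le_rfl, h0⟩
  | N + 1 => by
    obtain ⟨i, h1, h2⟩ := h.exists_true h0 N
    exact ⟨_, by omega, (h i h2).2⟩

theorem mem_of_finite_approx {S : Set X} (hS : S.Finite) {y : X}
    (h : ∀ n, ∃ p ∈ S, Agree n p y) : y ∈ S := by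
  by_contra hy
  have key : ∀ p ∈ S, ∀ᶠ n in atTop, ¬ Agree n p y := by
    intro p hp
    have : p ≠ y := fun h => hy (h ▸ hp)
    obtain ⟨j, hj⟩ := Function.ne_iff.mp this
    filter_upwards [eventually_gt_atTop j] with n hn h'
    exact hj (h' j hn)
  obtain ⟨n, hn⟩ := ((Filter.eventually_all_finite hS).mpr key).exists
  obtain ⟨p, hp, h1⟩ := h n
  exact hn p hp h1

theorem Edge.finite_lev {l : ℕ} {a b : X} (h : Edge s l a b) (L : ℕ) :
    {p : X | ∃ e ∈ D s a b, e.lev = L ∧ e.dir = true ∧ e.pt = p}.Finite := by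
  rcases h with h | h
  · refine (h.finite_lev L).subset ?_
    rintro p ⟨e, h1, h2, _, h3⟩
    exact ⟨e, h2, h3, D_sep h1⟩
  · refine (h.finite_lev L).subset ?_
    rintro p ⟨e, h1, h2, _, h3⟩
    exact ⟨e, h2, h3, D_sep' h1⟩

/-- reading the code of a ray inside another edge -/
theorem Ray.read {x : X} {w : ℕ → X} {l : ℕ → ℕ} (h : Ray s x w l) {l0 : ℕ} {a b : X}
    (hE : Edge s l0 a b) {i : ℕ} (hi : 0 < i) (hbi : bt w l i = true) (hl0 : l0 < l (i + 1))
    (hall : ∀ j, i ≤ j → h.toPre.lam j ∈ D s a b) :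
    ∃ e ∈ D s a b, e.lev = l 0 ∧ e.dir = true ∧ Agree (l i) e.pt (w 0) := by
  have hc := h.code i hbi
  have f1 : Fwd (D s (w 0) x) (h.toPre.lam (i + 1)) :=
    Fw.fwd ⟨x, w, l, h, i + 1, Nat.succ_pos i, subset_rfl, rfl⟩
  have f2 : Fwd (D s a b) (h.toPre.lam (i + 1)) :=
    f1.local (h.lam_lt (Nat.lt_succ_self i)) (h.lam_lt (Nat.lt_succ_self (i + 1)))
      (h.lam_mem _) (h.lam_mem _) (hall _ le_rfl) (hall _ (by omega))
  rcases hE.parse (hall (i + 1) (Nat.le_succ i)) with h1 | h1 | h1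
  · simp only [Pre.lam_lev] at h1; omega
  swap
  · exact absurd f2 h1.not_fwd
  obtain ⟨x', w', l', h', a1, ha1, hC', hd⟩ := h1
  obtain ⟨a0, rfl⟩ : ∃ a0, a1 = a0 + 1 := ⟨a1 - 1, by omega⟩
  have run : ∀ t, t ≤ enc (w 0) (l i) + 1 →
      h.toPre.lam (i + 1 + t) = h'.toPre.lam (a0 + 1 + t) := by
    intro t
    induction t with
    | zero => intro _; exact hd
    | succ t ih =>
      intro ht
      have e1 := ih (by omega)
      have b1 : bt w l (i + 1 + t) = false := hc.1 t (by omega)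
      have b2 : bt w' l' (a0 + 1 + t) = false := by
        have := congrArg DW.dir e1
        simp only [Pre.lam_dir] at this
        rw [← this, b1]
      have n1 := h.next b1 (subset_rfl (a := D s (w 0) x))
      have n2 := h'.next b2 hC'
      rw [← e1] at n2
      exact n1.transfer n2 (h.lam_mem _) (hall _ (by omega)) (h.lam_mem (i + 1 + t + 1 + 1))
        (hall _ (by omega)) (h.lam_lt (Nat.lt_succ_self _))
  have hlev : l (i + 1) = l' (a0 + 1) := congrArg DW.lev hd
  have start : bt w' l' a0 = true := by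
    by_contra hb
    have hb : bt w' l' a0 = false := by simpa using hb
    have ha0 : 0 < a0 := by
      rcases Nat.eq_zero_or_pos a0 with h0 | h0
      · subst h0; rw [h'.b0] at hb; exact absurd hb (by simp)
      · exact h0
    have n2 := h'.next hb hC'
    rw [← hd] at n2
    have mr : h'.toPre.lam a0 ∈ D s a b := hC' (h'.lam_mem a0)
    have r2 : h'.toPre.lam a0 < h.toPre.lam (i + 1) := n2.1.2.1
    have r1 : h.toPre.lam i < h'.toPre.lam a0 := by
      rcases D_lt_or mr (hall i le_rfl) with h2 | h2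
      · have := n2.1.2.2.1 _ h2 (h.lam_lt (Nat.lt_succ_self i))
        have h3 := h.mono i
        simp only [Pre.lam_lev] at this
        omega
      · refine lt_of_le_of_ne h2 fun h3 => ?_
        have := congrArg DW.dir h3
        simp only [Pre.lam_dir] at this
        rw [hbi, hb] at this
        exact absurd this (by simp)
    have mr' : h'.toPre.lam a0 ∈ D s (w 0) x :=
      D_convex (h.lam_mem i) (h.lam_mem (i + 1)) r1.le r2.le
    have hstep : h'.toPre.lam a0 ∈ D s (w i) (w (i + 1)) := by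
      obtain ⟨j, hj⟩ := h.toPre.exists_step mr'
      rcases lt_trichotomy j i with h2 | h2 | h2
      · exact absurd (h.step_lt h2 hj (h.toPre.lam_mem i)) (lt_asymm r1)
      · subst h2; exact hj
      · exfalso
        have h3 := h.toPre.step_lev_le (D_sep hj)
        have h4 : l (i + 1) ≤ l j := h.toShape.strictMono.monotone h2
        have h5 := h'.mono a0
        simp only [Pre.lam_lev] at h3
        omega
    have f3 : Fwd (D s a b) (h'.toPre.lam a0) := Fw.fwd ⟨x', w', l', h', a0, ha0, hC', rfl⟩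
    have f4 : Fwd (D s (w 0) x) (h'.toPre.lam a0) :=
      f3.local r1 r2 (hall _ le_rfl) (hall _ (Nat.le_succ i)) (h.lam_mem _) (h.lam_mem _)
    rcases h.toPre.step_parse hstep with h2 | h2 | h2
    · exact r1.ne h2.symm
    · obtain ⟨x2, w2, l2, h2, j, -, hC2, hr⟩ := h2
      have b2 : bt w2 l2 j = false := by
        have := congrArg DW.dir hr
        simp only [Pre.lam_dir] at this
        rw [← this, hb]
      have n3 := h2.next b2 (hC2.trans (h.step_subset i))
      rw [← hr] at n3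
      have k1 : h2.toPre.lam (j + 1) < h.toPre.lam (i + 1) :=
        h.step_lt (Nat.lt_succ_self i) (hC2 (h2.lam_mem _)) (h.toPre.lam_mem _)
      exact k1.ne (n3.transfer n2 mr' mr (h.lam_mem (i + 1)) (hall _ (Nat.le_succ i)) k1)
    · exact (h2.mono (h.step_subset i)).not_fwd f4
  have hc' := h'.code a0 start
  have hbits : ∀ t, t ≤ enc (w 0) (l i) + 1 → bt w l (i + 1 + t) = bt w' l' (a0 + 1 + t) :=
    fun t ht => congrArg DW.dir (run t ht)
  have hm : enc (w 0) (l i) = enc (w' 0) (l' a0) := by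
    rcases lt_trichotomy (enc (w 0) (l i)) (enc (w' 0) (l' a0)) with h2 | h2 | h2
    · have h3 := hbits _ le_rfl
      rw [hc.2, hc'.1 _ h2] at h3
      exact absurd h3 (by simp)
    · exact h2
    · have h3 := hbits (enc (w' 0) (l' a0) + 1) (by omega)
      rw [hc'.2, hc.1 _ h2] at h3
      exact absurd h3 (by simp)
  obtain ⟨-, hy⟩ := enc_inj hm
  have hpt : dead w l (i + 1) = dead w' l' (a0 + 1) := congrArg DW.pt hd
  have hx : Agree (l (i + 1)) x x' := by
    refine (h.toShape.agree_dead (i + 1)).trans ?_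
    rw [hpt, hlev]
    exact (h'.toShape.agree_dead (a0 + 1)).symm
  have hl : l 0 = l' 0 :=
    h.valid.lev_unique h'.valid (h.toShape.strictMono hi) hy (hx.mono (h.mono i).le)
  refine ⟨h'.toPre.lam 0, hC' (h'.lam_mem 0), hl.symm, h'.b0, ?_⟩
  rw [Pre.lam_pt, dead_true h'.b0]
  exact hy.symm

theorem Ray.subset_of_frequently {x : X} {w : ℕ → X} {l : ℕ → ℕ} (h : Ray s x w l) {l0 : ℕ}
    {a b : X} (hE : Edge s l0 a b) (hf : ∀ N, ∃ i, N ≤ i ∧ h.toPre.lam i ∈ D s a b) :
    D s (w 0) x ⊆ D s a b := by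
  obtain ⟨t0, -, ht0⟩ := hf 0
  have hall : ∀ j, t0 ≤ j → h.toPre.lam j ∈ D s a b := by
    intro j hj
    obtain ⟨i, h1, h2⟩ := hf (j + 1)
    refine D_convex ht0 h2 ?_ (h.lam_lt h1).le
    rcases hj.lt_or_eq with h3 | h3
    · exact (h.lam_lt h3).le
    · rw [h3]
  have hmem := mem_of_finite_approx (hE.finite_lev (l 0)) (y := w 0) fun n => by
    obtain ⟨i, h1, h2⟩ := h.code.exists_true h.b0 (t0 + n + l0 + 1)
    have h3 := h.toShape.le_l i
    have h4 := h.mono i
    obtain ⟨e, h5, h6, h7, h8⟩ := h.read hE (i := i) (by omega) h2 (by omega)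
      fun j hj => hall j (by omega)
    exact ⟨e.pt, ⟨e, h5, h6, h7, rfl⟩, h8.mono (by omega)⟩
  obtain ⟨e, h1, h2, h3, h4⟩ := hmem
  have he : e = mu h.valid.wall := DW.ext h2 h4 h3
  intro r hr
  obtain ⟨N, hN⟩ := h.cofinal hr
  exact D_convex (he ▸ h1) (hall (N + t0) (by omega)) (h.valid.mu_le hr)
    (hN (N + t0) (by omega)).le

theorem Valid.subset_of_up {l : ℕ} {y x : X} (h : Valid s l y x) {l0 : ℕ} {a b : X}
    (hE : Edge s l0 a b) {e : DW s} (he : e ∈ D s y x)
    (hup : ∀ r ∈ D s y x, e ≤ r → r ∈ D s a b) : D s y x ⊆ D s a b := by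
  rcases h.cases with ⟨h1, rfl⟩ | ⟨w, l', hr, -, rfl⟩
  · intro r hr
    exact hup r hr (by rw [leaf_D h1 hr, leaf_D h1 he])
  · obtain ⟨N, hN⟩ := hr.cofinal he
    exact hr.subset_of_frequently hE fun M =>
      ⟨M + N, by omega, hup _ (hr.lam_mem _) (hN _ (by omega)).le⟩

theorem Valid.subset_of_finite {l : ℕ} {y x : X} (h : Valid s l y x) {I : Set (X × X)}
    (hI : I.Finite) (hE : ∀ p ∈ I, ∃ l0, Edge s l0 p.1 p.2)
    (hc : ∀ e ∈ D s y x, ∃ p ∈ I, e ∈ D s p.1 p.2) : ∃ p ∈ I, D s y x ⊆ D s p.1 p.2 := by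
  rcases h.cases with ⟨h1, rfl⟩ | ⟨w, l', hr, -, rfl⟩
  · obtain ⟨p, hp, h2⟩ := hc _ (leaf_mu h1)
    exact ⟨p, hp, fun r hr => by rw [leaf_D h1 hr]; exact h2⟩
  · by_contra hn
    have key : ∀ p ∈ I, ∀ᶠ i in atTop, hr.toPre.lam i ∉ D s p.1 p.2 := by
      intro p hp
      obtain ⟨l0, h0⟩ := hE p hp
      by_contra h2
      refine hn ⟨p, hp, hr.subset_of_frequently h0 fun N => ?_⟩
      have h3 : ∃ᶠ i in atTop, hr.toPre.lam i ∈ D s p.1 p.2 := by
        simpa [Filter.Frequently] using h2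
      exact frequently_atTop.mp h3 N
    obtain ⟨i, hi⟩ := ((Filter.eventually_all_finite hI).mpr key).exists
    obtain ⟨p, hp, h2⟩ := hc _ (hr.lam_mem i)
    exact hi p hp h2

section
variable {x : X} {w : ℕ → X} {l : ℕ → ℕ}

theorem Pre.opp_zero (h : Pre s x w l) {i : ℕ} {e : DW s} (h1 : e ∈ D s (w i) (w (i + 1)))
    (h2 : e.star ∈ D s (w (i + 1)) (w (i + 1 + 1))) : False := by
  have h3 : e ∈ D s (w (i + 1 + 1)) (w (i + 1)) := star_mem_D.mp h2
  have up : ∀ r ∈ D s (w i) (w (i + 1)), e ≤ r → r ∈ D s (w (i + 1 + 1)) (w (i + 1)) :=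
    fun r hr her => ⟨fun h4 => h3.1 (her h4), hr.2⟩
  have h4 : h.lam i ∈ D s (w (i + 1 + 1)) (w (i + 1)) := by
    cases hb : bt w l i
    · exact up _ (h.lam_mem i) (h.lam_max hb h1)
    · exact (h.valid_true hb).subset_of_up (h.edge (i + 1)).symm h1 up (h.lam_mem i)
  have h5 := h.step_lev_le (D_sep' h4)
  have h6 := h.mono i
  simp only [Pre.lam_lev] at h5
  omega

theorem Pre.opp (h : Pre s x w l) : ∀ g i (e : DW s), e ∈ D s (w i) (w (i + 1)) →
    e.star ∈ D s (w (i + 1 + g)) (w (i + 1 + g + 1)) → False := by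
  intro g
  induction g using Nat.strong_induction_on with
  | _ g ih =>
    intro i e h1 h2
    rcases Nat.eq_zero_or_pos g with hg | hg
    · subst hg; exact h.opp_zero h1 h2
    have h3 : w (i + 1 + g + 1) ∉ e.H := (e.mem_H_star _).mp h2.2
    have h4 : w (i + 1 + 1) ∈ e.H := by
      by_contra h4
      exact h.opp_zero h1 ⟨fun h' => (e.mem_H_star _).mp h' h1.2, (e.mem_H_star _).mpr h4⟩
    have m := h.lam_mem (i + 1)
    have hs : ¬ e.Same (h.lam (i + 1)) := by
      intro hs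
      rcases hs.eq_or with h5 | h5
      · exact m.1 (h5 ▸ h1.2)
      · exact (DW.mem_H_star _ _).mp (h5 ▸ h4) m.2
    have hn := DW.nested hs
    have h5 : (h.lam (i + 1)).pt ∈ e.H := by
      rcases hn (w (i + 1)) with h6 | h6
      · exact h6.mp h1.2
      · rcases hn (w (i + 1 + 1)) with h7 | h7
        · exact h7.mp h4
        · exact absurd (h6.mpr (h7.mp m.2)) m.1
    by_cases h6 : e.pt ∈ (h.lam (i + 1)).H
    · have h7 : w i ∈ (h.lam (i + 1)).H := by
        rcases hn (w i) with h7 | h7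
        · exact absurd (h7.mpr h5) h1.1
        · exact h7.mpr h6
      refine h.opp_zero (e := (h.lam (i + 1)).star)
        ⟨fun h' => (DW.mem_H_star _ _).mp h' h7, (DW.mem_H_star _ _).mpr m.1⟩ ?_
      rw [DW.star_star]
      exact m
    · have h7 : w (i + 1 + g + 1) ∉ (h.lam (i + 1)).H := by
        rcases hn (w (i + 1 + g + 1)) with h7 | h7
        · exact absurd (h7.mpr h5) h3
        · exact fun h' => h6 (h7.mp h')
      obtain ⟨t, t1, t2, t3, t4⟩ := exists_enter' (S := (h.lam (i + 1)).star.H)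
        (i := i + 1 + 1) (k := i + 1 + g + 1) (by omega)
        (fun h' => (DW.mem_H_star _ _).mp h' m.2) ((DW.mem_H_star _ _).mpr h7)
      obtain ⟨g', rfl⟩ := Nat.exists_eq_add_of_le t1
      exact ih g' (by omega) (i + 1) _ m ⟨t3, t4⟩

theorem Pre.step_subset (h : Pre s x w l) (i : ℕ) :
    D s (w i) (w (i + 1)) ⊆ D s (w 0) x := by
  intro e he
  constructor
  · intro h0
    obtain ⟨t, -, t2, t3, t4⟩ := exists_enter' (S := e.star.H) (Nat.zero_le i)
      (fun h' => (DW.mem_H_star _ _).mp h' h0) ((DW.mem_H_star _ _).mpr he.1)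
    obtain ⟨g, rfl⟩ := Nat.exists_eq_add_of_le (Nat.succ_le_of_lt t2)
    refine h.opp g t e.star ⟨t3, t4⟩ ?_
    rw [DW.star_star]
    exact he
  · rw [← h.lim_iff e (t := e.lev + 1 + (i + 1)) (by omega)]
    by_contra h0
    obtain ⟨t, t1, -, t3, t4⟩ := exists_enter' (S := e.star.H) (i := i + 1)
      (k := e.lev + 1 + (i + 1)) (by omega)
      (fun h' => (DW.mem_H_star _ _).mp h' he.2) ((DW.mem_H_star _ _).mpr h0)
    obtain ⟨g, rfl⟩ := Nat.exists_eq_add_of_le t1
    exact h.opp g i e he ⟨t3, t4⟩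

/-- closure under coded rays -/
theorem Pre.valid (h : Pre s x w l) (hc : Code w l) : Valid s (l 0) (w 0) x :=
  Ray.valid ⟨h, hc, h.red_of h.step_subset⟩

end

theorem Valid.inj_same {l : ℕ} {y x b : X} (h : Valid s l y x) (h' : Valid s l y b)
    (hD : D s y x = D s y b) : x = b := by
  rcases h.cases with ⟨h1, rfl⟩ | ⟨w, l1, hr, e1, rfl⟩
  · rcases h'.cases with ⟨_, h2⟩ | ⟨w', l', hr', e2, rfl⟩
    · exact h2.symm
    · exfalso
      have h3 := congrArg DW.lev (leaf_D h1 (hD ▸ hr'.lam_mem 1))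
      have h4 := hr'.mono 0
      simp only [Pre.lam_lev, mu] at h3
      simp only [Nat.zero_add] at h4
      omega
  · rcases h'.cases with ⟨h1, rfl⟩ | ⟨w', l', hr', e2, e3⟩
    · exfalso
      have h3 := congrArg DW.lev (leaf_D h1 (hD ▸ hr.lam_mem 1))
      have h4 := hr.mono 0
      simp only [Pre.lam_lev, mu] at h3
      simp only [Nat.zero_add] at h4
      omega
    · refine eq_of_agree fun N => ?_
      have hD' : D s (w 0) x = D s (w' 0) b := by rw [hD, e3]
      obtain ⟨M, hM⟩ := hr.cofinal (hD' ▸ hr'.lam_mem N)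
      have h1 := hM (M + N) (by omega)
      obtain ⟨j, hj⟩ := hr'.toPre.exists_step (hD' ▸ hr.lam_mem (M + N))
      have h2 : N ≤ j := by
        by_contra h2
        push Not at h2
        exact lt_asymm h1 (hr'.step_lt h2 hj (hr'.toPre.lam_mem N))
      have h3 : Agree (l' j) (hr.toPre.lam (M + N)).pt (dead w' l' j) :=
        (hr'.ch j).close fun h' => D_sep hj (step_of_symm
          (R := fun a b => a ∈ (hr.toPre.lam (M + N)).H ↔ b ∈ (hr.toPre.lam (M + N)).H)
          (fun _ _ => Iff.symm) h')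
      have h4 := hr.toShape.le_l (M + N)
      have h5 := hr'.toShape.le_l j
      exact ((hr.toShape.agree_dead (M + N)).mono (by omega)).trans
        ((h3.mono (by omega)).trans ((hr'.toShape.agree_dead j).symm.mono (by omega)))

theorem Valid.inj {l l' : ℕ} {y x a b : X} (h : Valid s l y x) (hE : Edge s l' a b)
    (hD : D s y x = D s a b) : a = y ∧ b = x := by
  rcases hE with h' | h'
  · have h1 := h.struct.2 _ (hD ▸ h'.mu_mem)
    have h2 := h'.struct.2 _ (hD ▸ h.mu_mem)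
    have h3 : mu h'.wall = mu h.wall := by
      rcases h1 with h1 | h1
      · exact h1
      · rcases h2 with h2 | h2
        · exact h2.symm
        · simp only [mu] at h1 h2; omega
    have h4 : l' = l := congrArg DW.lev h3
    have h5 : a = y := congrArg DW.pt h3
    subst h4 h5
    exact ⟨rfl, (h.inj_same h' hD).symm⟩
  · exfalso
    have m1 : (mu h'.wall).star ∈ D s y x := hD ▸ star_mem_D.mpr h'.mu_mem
    have m2 : (mu h.wall).star ∈ D s b a := star_mem_D.mpr (hD ▸ h.mu_mem)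
    rcases h.struct.2 _ m1 with h1 | h1
    · have := congrArg DW.dir h1
      simp [mu] at this
    · rcases h'.struct.2 _ m2 with h2 | h2
      · have := congrArg DW.dir h2
        simp [mu] at this
      · simp only [mu, DW.star_lev] at h1 h2; omega

/-- the graph -/
def Gr (s : ℕ → X) : SimpleGraph X where
  Adj a b := ∃ l, Edge s l a b
  symm := ⟨fun _ _ ⟨l, h⟩ => ⟨l, h.symm⟩⟩
  loopless := ⟨fun _ ⟨_, h⟩ => by
    rcases h with h | h <;>
    · have h1 := h.dead_bit
      rw [h.live_bit] at h1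
      exact absurd h1 (by simp)⟩

theorem exists_exit {V : Type} [DecidableEq V] {G : SimpleGraph V} {v : V} (c : G.Walk v v)
    {δ : G.Dart} (hδ : δ ∈ c.darts) {S : Set V} (h1 : δ.fst ∉ S) (h2 : δ.snd ∈ S) :
    ∃ δ' ∈ c.darts, δ'.fst ∈ S ∧ δ'.snd ∉ S := by
  by_cases hv : v ∈ S
  · have hm := c.dart_fst_mem_support_of_mem_darts hδ
    obtain ⟨d, h3, h4⟩ := (c.takeUntil _ hm).exists_boundary_dart S hv h1
    exact ⟨d, c.darts_takeUntil_subset_darts hm h3, h4⟩
  · have hm := c.dart_snd_mem_support_of_mem_darts hδ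
    obtain ⟨d, h3, h4⟩ := (c.dropUntil _ hm).exists_boundary_dart S h2 hv
    exact ⟨d, c.darts_dropUntil_subset_darts hm h3, h4⟩

theorem Gr_acyclic (s : ℕ → X) : (Gr s).IsAcyclic := by
  classical
  intro v c hc
  have hne : {δ | δ ∈ c.darts}.Nonempty := by
    have h1 := hc.three_le_length
    have h2 : c.darts ≠ [] := by
      intro h
      have := c.length_darts
      rw [h] at this
      simp at this
      omega
    exact List.exists_mem_of_ne_nil _ h2
  have hfin : {δ | δ ∈ c.darts}.Finite := List.finite_toSet _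
  obtain ⟨δ, hδ, hmax⟩ := hfin.exists_maximalFor
    (fun δ : (Gr s).Dart => D s δ.fst δ.snd ∪ D s δ.snd δ.fst) _ hne
  have hδ' : δ ∈ c.darts := hδ
  have nodup : ∀ δ' ∈ c.darts, δ'.edge = δ.edge → δ' = δ := fun δ' h1 h2 =>
    List.inj_on_of_nodup_map hc.edges_nodup h1 hδ' h2
  let I : Set (X × X) := {p | ∃ δ' ∈ c.darts, δ' ≠ δ ∧ (p = (δ'.fst, δ'.snd) ∨ p = (δ'.snd, δ'.fst))}
  have hI : I.Finite := by
    refine ((hfin.image fun δ' => (δ'.fst, δ'.snd)).union
      (hfin.image fun δ' => (δ'.snd, δ'.fst))).subset ?_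
    rintro p ⟨δ', h1, -, h2 | h2⟩
    · exact Or.inl ⟨δ', h1, h2.symm⟩
    · exact Or.inr ⟨δ', h1, h2.symm⟩
  have hIE : ∀ p ∈ I, ∃ l0, Edge s l0 p.1 p.2 := by
    rintro p ⟨δ', -, -, rfl | rfl⟩
    · exact δ'.adj
    · exact δ'.adj.symm
  have cov1 : ∀ e ∈ D s δ.fst δ.snd, ∃ p ∈ I, e ∈ D s p.1 p.2 := by
    intro e he
    obtain ⟨δ', h1, h2, h3⟩ := exists_exit c hδ' he.1 he.2
    exact ⟨_, ⟨δ', h1, fun h => he.1 (h ▸ h2), Or.inr rfl⟩, h3, h2⟩
  have cov2 : ∀ e ∈ D s δ.snd δ.fst, ∃ p ∈ I, e ∈ D s p.1 p.2 := by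
    intro e he
    have he' : e.star ∈ D s δ.fst δ.snd := star_mem_D.mpr he
    obtain ⟨δ', h1, h2, h3⟩ := exists_exit c hδ' he'.1 he'.2
    exact ⟨_, ⟨δ', h1, fun h => he'.1 (h ▸ h2), Or.inl rfl⟩, star_mem_D.mp ⟨h3, h2⟩⟩
  have fin : ∀ l y x, Valid s l y x → D s y x ∪ D s x y = D s δ.fst δ.snd ∪ D s δ.snd δ.fst →
      s(y, x) = δ.edge → (∀ e ∈ D s y x, ∃ p ∈ I, e ∈ D s p.1 p.2) → False := by
    intro l y x hv hU hedge hcov
    obtain ⟨p, hp, hsub⟩ := hv.subset_of_finite hI hIE hcov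
    obtain ⟨l0, hE⟩ := hIE p hp
    obtain ⟨δ', h1, h2, h3⟩ := hp
    have hU' : D s p.1 p.2 ∪ D s p.2 p.1 = D s δ'.fst δ'.snd ∪ D s δ'.snd δ'.fst := by
      rcases h3 with rfl | rfl
      · rfl
      · exact Set.union_comm _ _
    have hle : D s δ.fst δ.snd ∪ D s δ.snd δ.fst ≤ D s δ'.fst δ'.snd ∪ D s δ'.snd δ'.fst := by
      rw [← hU, ← hU']
      exact Set.union_subset_union hsub (D_subset_swap hsub)
    have hge := hmax h1 hle
    simp only at hge
    rw [← hU, ← hU'] at hge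
    have hD : D s y x = D s p.1 p.2 := by
      refine Set.Subset.antisymm hsub fun e he => ?_
      rcases hge (Or.inl he) with h4 | h4
      · exact h4
      · exact absurd (D_subset_swap hsub h4).2 he.1
    obtain ⟨h4, h5⟩ := hv.inj hE hD
    apply h2
    apply nodup δ' h1
    rw [← hedge, ← h4, ← h5]
    rcases h3 with rfl | rfl
    · rfl
    · exact Sym2.eq_swap
  obtain ⟨l, hE | hE⟩ := δ.adj
  · exact fin l _ _ hE rfl rfl cov1
  · exact fin l _ _ hE (Set.union_comm _ _) Sym2.eq_swap cov2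

end Pool.Agent.P.MP_21cc92_lc
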