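import Pool.Agent.P.MP_21cc92_lc.Walls

set_option autoImplicit false

namespace Pool.Agent.P.MP_21cc92_lc

open Filter

/-- an injective code of the first `n` bits of `y` -/
def enc (y : X) (n : ℕ) : ℕ := Encodable.encode (List.ofFn fun j : Fin n => y j)

theorem enc_congr {y y' : X} {n : ℕ} (h : Agree n y y') : enc y n = enc y' n := by
  unfold enc
  congr 2
  funext j
  exact h j j.2

theorem enc_inj {y y' : X} {n n' : ℕ} (h : enc y n = enc y' n') : n = n' ∧ Agree n y y' := by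
  unfold enc at h
  have h1 := Encodable.encode_injective h
  have h2 : n = n' := by simpa using congrArg List.length h1
  subst h2
  refine ⟨rfl, fun j hj => ?_⟩
  have h3 := List.ofFn_injective h1
  exact congrFun h3 ⟨j, hj⟩

/-- orientation bit of the `i`-th step -/
def bt (w : ℕ → X) (l : ℕ → ℕ) (i : ℕ) : Bool := w (i + 1) (l i)

/-- dead end of the `i`-th step -/
def dead (w : ℕ → X) (l : ℕ → ℕ) (i : ℕ) : X := if bt w l i = true then w i else w (i + 1)

/-- live end of the `i`-th step -/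
def live (w : ℕ → X) (l : ℕ → ℕ) (i : ℕ) : X := if bt w l i = true then w (i + 1) else w i

theorem dead_true {w : ℕ → X} {l : ℕ → ℕ} {i : ℕ} (h : bt w l i = true) : dead w l i = w i :=
  if_pos h
theorem live_true {w : ℕ → X} {l : ℕ → ℕ} {i : ℕ} (h : bt w l i = true) :
    live w l i = w (i + 1) := if_pos h
theorem dead_false {w : ℕ → X} {l : ℕ → ℕ} {i : ℕ} (h : bt w l i = false) :
    dead w l i = w (i + 1) := if_neg (by simp [h])
theorem live_false {w : ℕ → X} {l : ℕ → ℕ} {i : ℕ} (h : bt w l i = false) :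
    live w l i = w i := if_neg (by simp [h])

/-- shape conditions on a ray -/
structure Shape (x : X) (w : ℕ → X) (l : ℕ → ℕ) : Prop where
  mono : ∀ i, l i < l (i + 1)
  lim : ∀ i, Agree (l i) x (w i)
  b0 : bt w l 0 = true

/-- the rigid code -/
def Code (w : ℕ → X) (l : ℕ → ℕ) : Prop :=
  ∀ i, bt w l i = true → (∀ t, t ≤ enc (w 0) (l i) → bt w l (i + 1 + t) = false) ∧
    bt w l (i + 1 + (enc (w 0) (l i) + 1)) = true

/-- reducedness, at finite depth -/
def Red (s : ℕ → X) (x : X) (w : ℕ → X) : Prop :=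
  ∀ i m, ∃ N, ∀ d, N ≤ d → ∀ p, IsWall s m p → sg s m p d (w i) ≠ sg s m p d (w (i + 1)) →
    sg s m p d (w 0) = sg s m p d (w i) ∧ sg s m p d x = sg s m p d (w (i + 1))

abbrev T := ℕ × ℕ × X × X
abbrev A := (ℕ → X) × (ℕ → ℕ) × (ℕ → ℕ)

def Leaf (s : ℕ → X) (t : T) : Prop :=
  t.1 = 0 ∧ IsWall s t.2.1 t.2.2.1 ∧ t.2.2.2 = flip t.2.2.1 t.2.1

def Node (s : ℕ → X) (t : T) (a : A) : Prop :=
  t.1 = a.2.2 0 + 1 ∧ t.2.1 = a.2.1 0 ∧ t.2.2.1 = a.1 0 ∧ Shape t.2.2.2 a.1 a.2.1 ∧
    Code a.1 a.2.1 ∧ Red s t.2.2.2 a.1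

def child (a : A) (i : ℕ) : T := (a.2.2 i, a.2.1 i, dead a.1 a.2.1 i, live a.1 a.2.1 i)

/-- witness trees -/
def Wit (s : ℕ → X) (τ : List ℕ → T × A) : Prop :=
  ∀ σ, Leaf s (τ σ).1 ∨ (Node s (τ σ).1 (τ σ).2 ∧ ∀ i, (τ (σ ++ [i])).1 = child (τ σ).2 i)

/-- the greatest fixed point -/
def V (s : ℕ → X) : Set T := {t | ∃ τ, Wit s τ ∧ (τ []).1 = t}

variable {s : ℕ → X}

theorem V_unfold {t : T} (h : t ∈ V s) :
    Leaf s t ∨ ∃ a, Node s t a ∧ ∀ i, child a i ∈ V s := by
  obtain ⟨τ, hτ, rfl⟩ := h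
  rcases hτ [] with h | ⟨h1, h2⟩
  · exact Or.inl h
  · refine Or.inr ⟨_, h1, fun i => ⟨fun σ => τ (i :: σ), fun σ => hτ (i :: σ), ?_⟩⟩
    simpa using h2 i

theorem V_leaf {t : T} (h : Leaf s t) : t ∈ V s :=
  ⟨fun _ => (t, default), fun _ => Or.inl h, rfl⟩

theorem V_node {t : T} {a : A} (h : Node s t a) (hc : ∀ i, child a i ∈ V s) : t ∈ V s := by
  choose τ h1 h2 using hc
  refine ⟨fun σ => match σ with
    | [] => (t, a)
    | i :: σ => τ i σ, ?_, rfl⟩
  intro σ
  cases σ with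
  | nil => exact Or.inr ⟨h, fun i => h2 i⟩
  | cons j σ => exact h1 j σ

/-- valid oriented edges: level, dead end, live end -/
def Valid (s : ℕ → X) (l : ℕ) (y x : X) : Prop := ∃ k, (k, l, y, x) ∈ V s

/-- rays with valid steps -/
structure Pre (s : ℕ → X) (x : X) (w : ℕ → X) (l : ℕ → ℕ) : Prop extends Shape x w l where
  ch : ∀ i, Valid s (l i) (dead w l i) (live w l i)

/-- coded reduced rays with valid steps -/
structure Ray (s : ℕ → X) (x : X) (w : ℕ → X) (l : ℕ → ℕ) : Prop extends Pre s x w l where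
  code : Code w l
  red : Red s x w

theorem Valid.leaf {l : ℕ} {y : X} (h : IsWall s l y) : Valid s l y (flip y l) :=
  ⟨0, V_leaf ⟨rfl, h, rfl⟩⟩

theorem Ray.valid {x : X} {w : ℕ → X} {l : ℕ → ℕ} (h : Ray s x w l) :
    Valid s (l 0) (w 0) x := by
  choose k hk using h.ch
  exact ⟨k 0 + 1, V_node (a := (w, l, k)) ⟨rfl, rfl, rfl, h.toShape, h.code, h.red⟩ hk⟩

theorem Shape.strictMono {x : X} {w : ℕ → X} {l : ℕ → ℕ} (h : Shape x w l) : StrictMono l :=
  strictMono_nat_of_lt_succ h.mono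

theorem Shape.le_l {x : X} {w : ℕ → X} {l : ℕ → ℕ} (h : Shape x w l) (i : ℕ) : i ≤ l i :=
  h.strictMono.le_apply

theorem Valid.induct (L : ℕ) (P : ℕ → X → X → Prop)
    (hbig : ∀ l y x, Valid s l y x → L < l → P l y x)
    (hleaf : ∀ l y, IsWall s l y → l ≤ L → P l y (flip y l))
    (hray : ∀ x w l, Ray s x w l → l 0 ≤ L →
      (∀ i, P (l i) (dead w l i) (live w l i)) → P (l 0) (w 0) x) :
    ∀ l y x, Valid s l y x → P l y x := by
  have key : ∀ n k l y x, L + 1 - l = n → (k, l, y, x) ∈ V s → P l y x := by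
    intro n
    induction n using Nat.strong_induction_on with
    | _ n ihn =>
      intro k
      induction k using Nat.strong_induction_on with
      | _ k ihk =>
        intro l y x hn hv
        by_cases hL : L < l
        · exact hbig l y x ⟨k, hv⟩ hL
        · push Not at hL
          rcases V_unfold hv with ⟨_, h2, h3⟩ | ⟨⟨w, l', k'⟩, ⟨h1, h2, h3, h4, h5, h6⟩, hc⟩
          · simp only at h2 h3
            rw [h3]
            exact hleaf l y h2 hL
          · simp only at h1 h2 h3 h4 h5 h6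
            subst h2 h3
            refine hray x w l' ⟨⟨h4, fun i => ⟨_, hc i⟩⟩, h5, h6⟩ hL fun i => ?_
            rcases Nat.eq_zero_or_pos i with hi | hi
            · subst hi
              exact ihk (k' 0) (by omega) _ _ _ hn (hc 0)
            · have : l' 0 < l' i := h4.strictMono hi
              exact ihn (L + 1 - l' i) (by omega) (k' i) _ _ _ rfl (hc i)
  rintro l y x ⟨k, hk⟩
  exact key _ k l y x rfl hk

theorem Valid.cases {l : ℕ} {y x : X} (h : Valid s l y x) :
    (IsWall s l y ∧ x = flip y l) ∨ ∃ w l', Ray s x w l' ∧ l = l' 0 ∧ y = w 0 := by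
  obtain ⟨k, hv⟩ := h
  rcases V_unfold hv with ⟨_, h2, h3⟩ | ⟨⟨w, l', k'⟩, ⟨_, h2, h3, h4, h5, h6⟩, hc⟩
  · exact Or.inl ⟨h2, h3⟩
  · exact Or.inr ⟨w, l', ⟨⟨h4, fun i => ⟨_, hc i⟩⟩, h5, h6⟩, h2, h3⟩

theorem Valid.basic {l : ℕ} {y x : X} (h : Valid s l y x) :
    IsWall s l y ∧ Agree l y x ∧ x l = true := by
  obtain ⟨k, hv⟩ := h
  induction k using Nat.strong_induction_on generalizing l y x with
  | _ k ih =>
    rcases V_unfold hv with ⟨_, h2, h3⟩ | ⟨⟨w, l', k'⟩, ⟨h1, h2, h3, h4, -, -⟩, hc⟩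
    · simp only at h2 h3
      subst h3
      exact ⟨h2, agree_flip _ _, flip_self _ _⟩
    · simp only at h1 h2 h3 h4
      subst h2 h3
      have := ih (k' 0) (by omega) (hc 0)
      simp only [dead_true h4.b0, live_true h4.b0] at this
      refine ⟨this.1, this.2.1.trans ((h4.lim 1).symm.mono (h4.mono 0).le), ?_⟩
      rw [h4.lim 1 _ (h4.mono 0)]
      exact this.2.2

theorem Valid.wall {l : ℕ} {y x : X} (h : Valid s l y x) : IsWall s l y := h.basic.1
theorem Valid.agree {l : ℕ} {y x : X} (h : Valid s l y x) : Agree l y x := h.basic.2.1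
theorem Valid.live_bit {l : ℕ} {y x : X} (h : Valid s l y x) : x l = true := h.basic.2.2
theorem Valid.dead_bit {l : ℕ} {y x : X} (h : Valid s l y x) : y l = false := h.wall.2

theorem Valid.lev_unique {l l' : ℕ} {y x y' x' : X} (h : Valid s l y x) (h' : Valid s l' y' x')
    {n : ℕ} (hn : l < n) (hy : Agree n y y') (hx : Agree n x x') : l = l' := by
  rcases lt_trichotomy l l' with hl | hl | hl
  · exfalso
    have h1 := h'.agree l hl
    rw [← hy l hn, ← hx l hn, h.dead_bit, h.live_bit] at h1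
    exact Bool.false_ne_true h1
  · exact hl
  · exfalso
    have h1 := h.agree l' hl
    rw [hy l' (hl.trans hn), hx l' (hl.trans hn), h'.dead_bit, h'.live_bit] at h1
    exact Bool.false_ne_true h1

/-- transfer a symmetric relation from (dead, live) to consecutive points -/
theorem step_of_symm {w : ℕ → X} {l : ℕ → ℕ} {i : ℕ} {R : X → X → Prop}
    (hs : ∀ a b, R a b → R b a) (h : R (dead w l i) (live w l i)) : R (w i) (w (i + 1)) := by
  cases hb : bt w l i
  · rw [dead_false hb, live_false hb] at h; exact hs _ _ h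
  · rw [dead_true hb, live_true hb] at h; exact h

theorem Pre.agree_step {x : X} {w : ℕ → X} {l : ℕ → ℕ} (h : Pre s x w l) (i : ℕ) :
    Agree (l i) (w i) (w (i + 1)) :=
  step_of_symm (R := Agree (l i)) (fun _ _ => Agree.symm) (h.ch i).agree

theorem Shape.agree_dead {x : X} {w : ℕ → X} {l : ℕ → ℕ} (h : Shape x w l) (i : ℕ) :
    Agree (l i) x (dead w l i) := by
  cases hb : bt w l i
  · rw [dead_false hb]; exact (h.lim (i + 1)).mono (h.mono i).le
  · rw [dead_true hb]; exact h.lim i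

/-- chaining equalities along a ray up to its limit -/
theorem Shape.chain {x : X} {w : ℕ → X} {l : ℕ → ℕ} (h : Shape x w l) {m : ℕ} {p : X} {d i : ℕ}
    (hs : ∀ j, i ≤ j → sg s m p d (w j) = sg s m p d (w (j + 1))) :
    sg s m p d (w i) = sg s m p d x := by
  have h1 : ∀ t, sg s m p d (w i) = sg s m p d (w (i + t)) := by
    intro t
    induction t with
    | zero => rfl
    | succ t ih => rw [ih, hs (i + t) (Nat.le_add_right _ _)]; rfl
  rw [h1 d]
  exact sg_congr ((h.lim (i + d)).symm.mono ((Nat.le_add_left _ _).trans (h.le_l _)))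

/-- walls of lower level never separate the ends of a valid edge -/
theorem Valid.low {l : ℕ} {y x : X} (h : Valid s l y x) {m : ℕ} (p : X) (hm : m < l) (d : ℕ) :
    sg s m p d y = sg s m p d x := by
  refine Valid.induct d (fun l y x => m < l → sg s m p d y = sg s m p d x) ?_ ?_ ?_ l y x h hm
  · intro l y x hv hd _
    exact sg_congr (hv.agree.mono hd.le)
  · intro l y hw _ hm
    exact sg_endpoints hw d (Or.inl hm.ne)
  · intro x w l hr _ ih hm
    refine hr.toShape.chain fun j _ => ?_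
    exact step_of_symm (R := fun a b => sg s m p d a = sg s m p d b) (fun _ _ => Eq.symm)
      (ih j (hm.trans_le (hr.toShape.strictMono.monotone (Nat.zero_le j))))

theorem Pre.low_step {x : X} {w : ℕ → X} {l : ℕ → ℕ} (h : Pre s x w l) {m i : ℕ} (p : X)
    (hm : m < l i) (d : ℕ) : sg s m p d (w i) = sg s m p d (w (i + 1)) :=
  step_of_symm (R := fun a b => sg s m p d a = sg s m p d b) (fun _ _ => Eq.symm)
    ((h.ch i).low p hm d)

theorem Pre.low_tail {x : X} {w : ℕ → X} {l : ℕ → ℕ} (h : Pre s x w l) {m i : ℕ} (p : X)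
    (hm : m < l i) (d : ℕ) : sg s m p d (w i) = sg s m p d x :=
  h.toShape.chain fun _ hj =>
    h.low_step p (hm.trans_le (h.toShape.strictMono.monotone hj)) d

/-- finitely many walls of bounded level cover the finite paths -/
def Cover (s : ℕ → X) (L l : ℕ) (y x : X) : Prop :=
  ∃ F : Set (ℕ × X), F.Finite ∧ (∀ q ∈ F, IsWall s q.1 q.2 ∧ Agree l q.2 y) ∧
    ∀ d m p, m ≤ L → IsWall s m p → sg s m p d y ≠ sg s m p d x →
      ∃ q, (m, q) ∈ F ∧ Agree d p q

theorem exists_step_ne {w : ℕ → X} {g : X → Bool} :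
    ∀ t, g (w 0) ≠ g (w t) → ∃ i, i < t ∧ g (w i) ≠ g (w (i + 1))
  | 0, h => absurd rfl h
  | t + 1, h => by
    by_cases h1 : g (w 0) = g (w t)
    · exact ⟨t, Nat.lt_succ_self t, fun h2 => h (h1.trans h2)⟩
    · obtain ⟨i, hi, h2⟩ := exists_step_ne t h1
      exact ⟨i, hi.trans (Nat.lt_succ_self t), h2⟩

theorem Valid.cover {l : ℕ} {y x : X} (h : Valid s l y x) (L : ℕ) : Cover s L l y x := by
  refine Valid.induct L (Cover s L) ?_ ?_ ?_ l y x h
  · intro l y x hv hL
    refine ⟨∅, Set.finite_empty, by simp, fun d m p hm _ hne => ?_⟩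
    exact absurd (hv.low p (hm.trans_lt hL) d) hne
  · intro l y hw _
    refine ⟨{(l, y)}, Set.finite_singleton _, ?_, fun d m p _ hp hne => ?_⟩
    · rintro q rfl
      exact ⟨hw, Agree.refl _ _⟩
    · obtain ⟨h1, h2⟩ := eq_of_not_dist hp hw fun hd => hne (sg_endpoints hw d hd)
      subst h1
      exact ⟨y, rfl, h2⟩
  · intro x w l hr _ ih
    choose F hF1 hF2 hF3 using ih
    refine ⟨⋃ i ∈ Set.Iio (L + 1), F i, (Set.finite_Iio _).biUnion fun i _ => hF1 i, ?_, ?_⟩
    · intro q hq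
      simp only [Set.mem_iUnion] at hq
      obtain ⟨i, _, hq⟩ := hq
      refine ⟨(hF2 i q hq).1, ?_⟩
      have hl : l 0 ≤ l i := hr.toShape.strictMono.monotone (Nat.zero_le i)
      exact ((hF2 i q hq).2.mono hl).trans
        (((hr.toShape.agree_dead i).symm.mono hl).trans (hr.lim 0))
    · intro d m p hm hp hne
      have h1 : sg s m p d (w (L + 1)) = sg s m p d x :=
        hr.toPre.low_tail p (by have := hr.toShape.le_l (L + 1); omega) d
      rw [← h1] at hne
      obtain ⟨i, hi, h2⟩ := exists_step_ne (g := sg s m p d) _ hne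
      have h3 : sg s m p d (dead w l i) ≠ sg s m p d (live w l i) := fun h3 =>
        h2 (step_of_symm (R := fun a b => sg s m p d a = sg s m p d b) (fun _ _ => Eq.symm) h3)
      obtain ⟨q, hq1, hq2⟩ := hF3 i d m p hm hp h3
      exact ⟨q, Set.mem_biUnion (show i ∈ Set.Iio (L + 1) from hi) hq1, hq2⟩

/-- the finite sides stabilise -/
def Tame (s : ℕ → X) (m : ℕ) (p a b : X) : Prop :=
  (∀ᶠ d in atTop, sg s m p d a = sg s m p d b) ∨ (∀ᶠ d in atTop, sg s m p d a ≠ sg s m p d b)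

theorem Tame.of_eq {m : ℕ} {p a b : X} (h : ∀ d, sg s m p d a = sg s m p d b) : Tame s m p a b :=
  Or.inl (Eventually.of_forall h)

theorem Tame.symm {m : ℕ} {p a b : X} (h : Tame s m p a b) : Tame s m p b a := by
  rcases h with h | h
  · exact Or.inl (h.mono fun _ => Eq.symm)
  · exact Or.inr (h.mono fun _ => Ne.symm)

theorem Tame.trans {m : ℕ} {p a b c : X} (h : Tame s m p a b) (h' : Tame s m p b c) :
    Tame s m p a c := by
  rcases h with h | h <;> rcases h' with h' | h'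
  · left; filter_upwards [h, h'] with d h1 h2; exact h1.trans h2
  · right; filter_upwards [h, h'] with d h1 h2; rw [h1]; exact h2
  · right; filter_upwards [h, h'] with d h1 h2; rw [← h2]; exact h1
  · left; filter_upwards [h, h'] with d h1 h2
    revert h1 h2
    cases sg s m p d a <;> cases sg s m p d b <;> cases sg s m p d c <;> simp

theorem tame_chain {m : ℕ} {p : X} {w : ℕ → X} (h : ∀ i, Tame s m p (w i) (w (i + 1))) :
    ∀ t, Tame s m p (w 0) (w t)
  | 0 => Tame.of_eq fun _ => rfl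
  | t + 1 => (tame_chain h t).trans (h t)

theorem Valid.tame {l : ℕ} {y x : X} (h : Valid s l y x) {m : ℕ} {p : X} (hp : IsWall s m p) :
    Tame s m p y x := by
  refine Valid.induct m (fun _ y x => Tame s m p y x) ?_ ?_ ?_ l y x h
  · intro l y x hv hL
    exact Tame.of_eq (hv.low p hL)
  · intro l y hw _
    by_cases he : m = l ∧ p = y
    · obtain ⟨rfl, rfl⟩ := he
      right
      filter_upwards [eventually_gt_atTop m] with d hd
      rw [sg_own0 hp.2, sg_own1 p d hd]
      exact Bool.false_ne_true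
    · left
      exact (eventually_dist hp hw he).mono fun d hd => sg_endpoints hw d hd
  · intro x w l hr _ ih
    have h1 : ∀ i, Tame s m p (w i) (w (i + 1)) := fun i =>
      step_of_symm (R := Tame s m p) (fun _ _ => Tame.symm) (ih i)
    exact (tame_chain h1 (m + 1)).trans (Tame.of_eq
      (hr.toPre.low_tail p (by have := hr.toShape.le_l (m + 1); omega)))

theorem Pre.tame_step {x : X} {w : ℕ → X} {l : ℕ → ℕ} (h : Pre s x w l) {m : ℕ} {p : X}
    (hp : IsWall s m p) (i : ℕ) : Tame s m p (w i) (w (i + 1)) :=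
  step_of_symm (R := Tame s m p) (fun _ _ => Tame.symm) ((h.ch i).tame hp)

theorem Pre.tame_zero {x : X} {w : ℕ → X} {l : ℕ → ℕ} (h : Pre s x w l) {m : ℕ} {p : X}
    (hp : IsWall s m p) (i : ℕ) : Tame s m p (w 0) (w i) :=
  tame_chain (h.tame_step hp) i

theorem Pre.tame_lim {x : X} {w : ℕ → X} {l : ℕ → ℕ} (h : Pre s x w l) {m : ℕ} {p : X}
    (hp : IsWall s m p) (i : ℕ) : Tame s m p x (w i) :=
  ((h.tame_zero hp (m + 1)).trans (Tame.of_eq
      (h.low_tail p (by have := h.toShape.le_l (m + 1); omega)))).symm.trans (h.tame_zero hp i)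

/-- reducedness at finite depth from reducedness in the limit -/
theorem Pre.red_of {x : X} {w : ℕ → X} {l : ℕ → ℕ} (h : Pre s x w l)
    (hD : ∀ i, D s (w i) (w (i + 1)) ⊆ D s (w 0) x) : Red s x w := by
  intro i m
  obtain ⟨F, hF1, hF2, hF3⟩ := (h.ch i).cover m
  have key : ∀ q ∈ F, ∀ᶠ d in atTop, sg s q.1 q.2 d (w i) ≠ sg s q.1 q.2 d (w (i + 1)) →
      sg s q.1 q.2 d (w 0) = sg s q.1 q.2 d (w i) ∧
        sg s q.1 q.2 d x = sg s q.1 q.2 d (w (i + 1)) := by
    intro q hq
    have hw := (hF2 q hq).1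
    rcases h.tame_step hw i with h1 | h1
    · exact h1.mono fun d hd hne => absurd hd hne
    · have hne : ∀ b : Bool, ¬ (w i ∈ (⟨q.1, q.2, hw, b⟩ : DW s).H ↔
          w (i + 1) ∈ (⟨q.1, q.2, hw, b⟩ : DW s).H) := by
        intro b hb
        obtain ⟨n, h2, h3⟩ := ((DW.eventually_eq_of_iff _ hb).and (U_of_atTop h1)).exists
        exact h3 h2
      obtain ⟨e, he1, he2, he⟩ : ∃ e : DW s, e.lev = q.1 ∧ e.pt = q.2 ∧
          e ∈ D s (w i) (w (i + 1)) := by
        by_cases hb : w (i + 1) ∈ (⟨q.1, q.2, hw, true⟩ : DW s).H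
        · exact ⟨⟨q.1, q.2, hw, true⟩, rfl, rfl, fun h' => hne true ⟨fun _ => hb, fun _ => h'⟩, hb⟩
        · refine ⟨(⟨q.1, q.2, hw, true⟩ : DW s).star, rfl, rfl, ?_, (DW.mem_H_star _ _).mpr hb⟩
          rw [DW.mem_H_star, not_not]
          by_contra h'
          exact hne true ⟨fun h => absurd h h', fun h => absurd h hb⟩
      have he' := hD i he
      have e1 := e.eventually_eq_of_iff (a := w 0) (b := w i)
        ⟨fun h => absurd h he'.1, fun h => absurd h he.1⟩
      have e2 := e.eventually_eq_of_iff (a := x) (b := w (i + 1)) ⟨fun _ => he.2, fun _ => he'.2⟩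
      rw [he1, he2] at e1 e2
      have f1 : ∀ᶠ d in atTop, sg s q.1 q.2 d (w 0) = sg s q.1 q.2 d (w i) := by
        rcases h.tame_zero hw i with h2 | h2
        · exact h2
        · obtain ⟨n, h3, h4⟩ := (e1.and (U_of_atTop h2)).exists
          exact absurd h3 h4
      have f2 : ∀ᶠ d in atTop, sg s q.1 q.2 d x = sg s q.1 q.2 d (w (i + 1)) := by
        rcases h.tame_lim hw (i + 1) with h2 | h2
        · exact h2
        · obtain ⟨n, h3, h4⟩ := (e2.and (U_of_atTop h2)).exists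
          exact absurd h3 h4
      filter_upwards [f1, f2] with d h2 h3 _
      exact ⟨h2, h3⟩
  obtain ⟨N, hN⟩ := eventually_atTop.mp ((Filter.eventually_all_finite hF1).mpr key)
  refine ⟨N, fun d hd p hp hne => ?_⟩
  have h3 : sg s m p d (dead w l i) ≠ sg s m p d (live w l i) := fun h3 =>
    hne (step_of_symm (R := fun a b => sg s m p d a = sg s m p d b) (fun _ _ => Eq.symm) h3)
  obtain ⟨q, hq1, hq2⟩ := hF3 d m p le_rfl hp h3
  have := hN d hd (m, q) hq1
  simp only [← sg_congr_p _ hq2] at this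
  exact this hne

theorem Ray.step_subset {x : X} {w : ℕ → X} {l : ℕ → ℕ} (h : Ray s x w l) (i : ℕ) :
    D s (w i) (w (i + 1)) ⊆ D s (w 0) x := by
  intro e he
  obtain ⟨N, hN⟩ := h.red i e.lev
  have h1 := (e.mem_H_star _).mpr he.1
  have key : ∀ᶠ d in (U : Filter ℕ), sg s e.lev e.pt d (w 0) = sg s e.lev e.pt d (w i) ∧
      sg s e.lev e.pt d x = sg s e.lev e.pt d (w (i + 1)) := by
    filter_upwards [h1, he.2, U_of_atTop (eventually_ge_atTop N)] with d h2 h3 h4
    refine hN d h4 e.pt e.wall ?_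
    simp only [DW.star_lev, DW.star_pt, DW.star_dir] at h2
    rw [h2, h3]
    cases e.dir <;> simp
  exact ⟨fun h2 => he.1 ((e.mem_H_congr (key.mono fun _ h => h.1)).mp h2),
    (e.mem_H_congr (key.mono fun _ h => h.2)).mpr he.2⟩

/-- level and position of walls separating a valid edge -/
theorem Valid.lev_le {l : ℕ} {y x : X} (h : Valid s l y x) {e : DW s}
    (he : ¬ (y ∈ e.H ↔ x ∈ e.H)) : l ≤ e.lev := by
  by_contra hc
  push Not at hc
  exact he (e.mem_H_congr (Eventually.of_forall fun d => h.low e.pt hc d))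

theorem Cover.mem {L l : ℕ} {y x : X} {F : Set (ℕ × X)} (hF1 : F.Finite)
    (hF3 : ∀ d m p, m ≤ L → IsWall s m p → sg s m p d y ≠ sg s m p d x →
      ∃ q, (m, q) ∈ F ∧ Agree d p q) (_hl : l = l) {e : DW s} (hL : e.lev ≤ L)
    (he : ¬ (y ∈ e.H ↔ x ∈ e.H)) : (e.lev, e.pt) ∈ F := by
  by_contra hc
  have key : ∀ q ∈ F, ∀ᶠ d in atTop, ¬ (q.1 = e.lev ∧ Agree d e.pt q.2) := by
    intro q hq
    by_cases h1 : q.1 = e.lev
    · have h2 : e.pt ≠ q.2 := by
        intro h2
        apply hc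
        rw [← h1, h2]
        exact hq
      obtain ⟨j, hj⟩ := Function.ne_iff.mp h2
      filter_upwards [eventually_gt_atTop j] with d hd h3
      exact hj (h3.2 j hd)
    · exact Eventually.of_forall fun d h => h1 h.1
  have h4 := (Filter.eventually_all_finite hF1).mpr key
  apply he
  apply e.mem_H_congr
  filter_upwards [U_of_atTop h4] with d hd
  by_contra hne
  obtain ⟨q, hq1, hq2⟩ := hF3 d e.lev e.pt hL e.wall hne
  exact hd (e.lev, q) hq1 ⟨rfl, hq2⟩

theorem Valid.close {l : ℕ} {y x : X} (h : Valid s l y x) {e : DW s}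
    (he : ¬ (y ∈ e.H ↔ x ∈ e.H)) : Agree l e.pt y := by
  obtain ⟨F, hF1, hF2, hF3⟩ := h.cover e.lev
  exact (hF2 _ (Cover.mem hF1 hF3 (rfl : l = l) le_rfl he)).2

theorem Valid.finite_lev {l : ℕ} {y x : X} (h : Valid s l y x) (L : ℕ) :
    {p : X | ∃ e : DW s, e.lev = L ∧ e.pt = p ∧ ¬ (y ∈ e.H ↔ x ∈ e.H)}.Finite := by
  obtain ⟨F, hF1, _, hF3⟩ := h.cover L
  refine (hF1.image Prod.snd).subset ?_
  rintro p ⟨e, h1, h2, h3⟩
  exact ⟨(e.lev, e.pt), Cover.mem hF1 hF3 (rfl : l = l) h1.le h3, h2⟩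

end Pool.Agent.P.MP_21cc92_lc
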