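import Mathlib

set_option autoImplicit false

namespace Pool.Agent.P.MP_21cc92_lc

open Filter

abbrev X := ℕ → Bool

/-- agreement below `n` -/
def Agree (n : ℕ) (a b : X) : Prop := ∀ j, j < n → a j = b j

theorem Agree.refl (n : ℕ) (a : X) : Agree n a a := fun _ _ => rfl
theorem Agree.symm {n : ℕ} {a b : X} (h : Agree n a b) : Agree n b a := fun j hj => (h j hj).symm
theorem Agree.trans {n : ℕ} {a b c : X} (h : Agree n a b) (h' : Agree n b c) : Agree n a c :=
  fun j hj => (h j hj).trans (h' j hj)
theorem Agree.mono {n m : ℕ} {a b : X} (h : Agree n a b) (hm : m ≤ n) : Agree m a b :=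
  fun j hj => h j (lt_of_lt_of_le hj hm)

theorem eq_of_agree {a b : X} (h : ∀ n, Agree n a b) : a = b :=
  funext fun j => h (j + 1) j (Nat.lt_succ_self j)

/-- the other endpoint of the basic edge at level `m` -/
def flip (p : X) (m : ℕ) : X := Function.update p m true

theorem flip_self (p : X) (m : ℕ) : flip p m m = true := by simp [flip]
theorem flip_ne (p : X) {m j : ℕ} (h : j ≠ m) : flip p m j = p j := by simp [flip, h]
theorem agree_flip (p : X) (m : ℕ) : Agree m p (flip p m) :=
  fun _ hj => (flip_ne p (ne_of_lt hj)).symm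

variable (s : ℕ → X)

/-- `(m, p)` codes the basic edge from `p` to `flip p m` -/
def IsWall (m : ℕ) (p : X) : Prop := Agree m p (s m) ∧ p m = false

/-- the side of `a` with respect to the edge `(m, p)` in the finite tree of depth `d` -/
def sg (m : ℕ) (p : X) : ℕ → X → Bool
  | 0, _ => false
  | d + 1, a => if d < m then false else if d = m then a d else
      if a d = p d then sg m p d a else sg m p d (s d)

variable {s}

theorem sg_le {m : ℕ} {p : X} {d : ℕ} (h : d ≤ m) (a : X) : sg s m p d a = false := by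
  cases d with
  | zero => rfl
  | succ d => simp [sg, show d < m from h]

theorem sg_succ_self (m : ℕ) (p a : X) : sg s m p (m + 1) a = a m := by simp [sg]

theorem sg_succ_gt {m d : ℕ} (h : m < d) (p a : X) :
    sg s m p (d + 1) a = if a d = p d then sg s m p d a else sg s m p d (s d) := by
  simp [sg, not_lt.mpr h.le, h.ne']

theorem sg_congr {m : ℕ} {p : X} : ∀ {d : ℕ} {a b : X}, Agree d a b → sg s m p d a = sg s m p d b
  | 0, _, _, _ => rfl
  | d + 1, a, b, h => by
    have h1 : a d = b d := h d (Nat.lt_succ_self d)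
    have h2 := sg_congr (m := m) (p := p) (h.mono (Nat.le_succ d))
    simp only [sg, h1, h2]

theorem sg_congr_p {m : ℕ} {p q : X} :
    ∀ {d : ℕ} (a : X), Agree d p q → sg s m p d a = sg s m q d a
  | 0, _, _ => rfl
  | d + 1, a, h => by
    have h1 : p d = q d := h d (Nat.lt_succ_self d)
    have h2 := sg_congr_p (m := m) a (h.mono (Nat.le_succ d))
    have h3 := sg_congr_p (m := m) (s d) (h.mono (Nat.le_succ d))
    simp only [sg, h1, h2, h3]

theorem sg_succ_of_agree {m d : ℕ} (h : m < d) (p : X) {q : X} (hq : Agree d q (s d)) :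
    sg s m p (d + 1) q = sg s m p d (s d) := by
  rw [sg_succ_gt h]
  split_ifs
  · exact sg_congr hq
  · rfl

theorem sg_own0 {m : ℕ} {p : X} (hp : p m = false) : ∀ d, sg s m p d p = false
  | 0 => rfl
  | d + 1 => by
    rcases lt_trichotomy d m with h | h | h
    · exact sg_le h p
    · subst h; rw [sg_succ_self, hp]
    · rw [sg_succ_gt h, if_pos rfl]; exact sg_own0 hp d

theorem sg_own1 {m : ℕ} (p : X) : ∀ d, m < d → sg s m p d (flip p m) = true
  | 0, h => absurd h (Nat.not_lt_zero _)
  | d + 1, h => by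
    rcases (Nat.lt_succ_iff.mp h).lt_or_eq with h | h
    · rw [sg_succ_gt h, if_pos (flip_ne p h.ne')]; exact sg_own1 p d h
    · subst h; rw [sg_succ_self, flip_self]

/-- the two edges are different in the finite tree of depth `d` -/
def Dist (d m : ℕ) (p : X) (l : ℕ) (q : X) : Prop := m ≠ l ∨ ∃ j, l < j ∧ j < d ∧ p j ≠ q j

theorem Dist.step {d m l : ℕ} {p q : X} (h : Dist (d + 1) m p l q) (he : p d = q d) :
    Dist d m p l q := by
  rcases h with h | ⟨j, h1, h2, h3⟩
  · exact Or.inl h
  · refine Or.inr ⟨j, h1, ?_, h3⟩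
    rcases (Nat.lt_succ_iff.mp h2).lt_or_eq with h | h
    · exact h
    · subst h; exact absurd he h3

theorem sg_endpoints {m l : ℕ} {p q : X} (hq : IsWall s l q) :
    ∀ d, Dist d m p l q → sg s m p d q = sg s m p d (flip q l)
  | 0, _ => rfl
  | d + 1, h => by
    rcases lt_trichotomy d m with hd | hd | hd
    · rw [sg_le hd, sg_le hd]
    · subst hd
      rw [sg_succ_self, sg_succ_self]
      have : d ≠ l := by
        rcases h with h | ⟨j, h1, h2, _⟩
        · exact h
        · omega
      exact (flip_ne q this).symm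
    · by_cases hl : d = l
      · subst hl
        rw [sg_succ_of_agree hd p hq.1,
          sg_succ_of_agree hd p ((agree_flip q d).symm.trans hq.1)]
      · rw [sg_succ_gt hd, sg_succ_gt hd, flip_ne q hl]
        split_ifs with he
        · exact sg_endpoints hq d (h.step he.symm)
        · rfl

theorem sg_nested {m l : ℕ} {p q : X} (hp : IsWall s m p) (hq : IsWall s l q) :
    ∀ d, m < d → l < d → Dist d m p l q → ∀ a,
      sg s m p d a = sg s m p d q ∨ sg s l q d a = sg s l q d p
  | 0, h, _, _, _ => absurd h (Nat.not_lt_zero _)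
  | d + 1, hm, hl, h, a => by
    rcases (Nat.lt_succ_iff.mp hm).lt_or_eq with hm | hm <;>
      rcases (Nat.lt_succ_iff.mp hl).lt_or_eq with hl | hl
    · by_cases he : p d = q d
      · have ih := sg_nested hp hq d hm hl (h.step he)
        rw [sg_succ_gt hm, sg_succ_gt hm, sg_succ_gt hl, sg_succ_gt hl, if_pos he.symm, if_pos he,
          ← he]
        split_ifs
        · exact ih a
        · exact ih (s d)
      · rw [sg_succ_gt hm, sg_succ_gt hm, sg_succ_gt hl, sg_succ_gt hl, if_neg (Ne.symm he),
          if_neg he]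
        by_cases h1 : a d = p d
        · right
          rw [if_neg (fun h2 => he (h1.symm.trans h2))]
        · left
          rw [if_neg h1]
    · subst hl
      rw [sg_succ_of_agree hm p hq.1, sg_succ_self, sg_succ_self, sg_succ_gt hm]
      by_cases h1 : a l = p l
      · exact Or.inr h1
      · left; rw [if_neg h1]
    · subst hm
      rw [sg_succ_of_agree hl q hp.1, sg_succ_self, sg_succ_self, sg_succ_gt hl]
      by_cases h1 : a m = q m
      · exact Or.inl h1
      · right; rw [if_neg h1]
    · exfalso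
      rcases h with h | ⟨j, h1, h2, _⟩ <;> omega

theorem eq_of_not_dist {d m l : ℕ} {p q : X} (hp : IsWall s m p) (hq : IsWall s l q)
    (h : ¬ Dist d m p l q) : m = l ∧ Agree d p q := by
  unfold Dist at h
  push Not at h
  obtain ⟨h1, h2⟩ := h
  subst h1
  refine ⟨rfl, fun j hj => ?_⟩
  rcases lt_trichotomy j m with h | h | h
  · exact (hp.1 j h).trans (hq.1 j h).symm
  · subst h; rw [hp.2, hq.2]
  · exact h2 j h hj

theorem eventually_dist {m l : ℕ} {p q : X} (hp : IsWall s m p) (hq : IsWall s l q)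
    (h : ¬ (m = l ∧ p = q)) : ∀ᶠ d in atTop, Dist d m p l q := by
  by_contra hc
  apply h
  have hf : ∃ᶠ d in atTop, ¬ Dist d m p l q := by
    simpa [Filter.Frequently] using hc
  have h1 : ∀ n, m = l ∧ Agree n p q := fun n => by
    obtain ⟨d, hd, hnd⟩ := (frequently_atTop.mp hf) n
    obtain ⟨h1, h2⟩ := eq_of_not_dist hp hq hnd
    exact ⟨h1, h2.mono hd⟩
  exact ⟨(h1 0).1, eq_of_agree fun n => (h1 n).2⟩

/-- a directed wall -/
@[ext] structure DW (s : ℕ → X) where
  lev : ℕ
  pt : X
  wall : IsWall s lev pt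
  dir : Bool

/-- the fixed ultrafilter -/
noncomputable abbrev U : Ultrafilter ℕ := hyperfilter ℕ

theorem U_of_atTop {P : ℕ → Prop} (h : ∀ᶠ d in atTop, P d) : ∀ᶠ d in (U : Filter ℕ), P d := by
  have : (U : Filter ℕ) ≤ atTop := by
    rw [← Nat.cofinite_eq_atTop]; exact hyperfilter_le_cofinite
  exact this h

namespace DW

/-- the half space of a directed wall -/
def H (d : DW s) : Set X := {a | ∀ᶠ n in (U : Filter ℕ), sg s d.lev d.pt n a = d.dir}

/-- the reversed wall -/
def star (d : DW s) : DW s := ⟨d.lev, d.pt, d.wall, !d.dir⟩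

@[simp] theorem star_lev (d : DW s) : d.star.lev = d.lev := rfl
@[simp] theorem star_pt (d : DW s) : d.star.pt = d.pt := rfl
@[simp] theorem star_dir (d : DW s) : d.star.dir = !d.dir := rfl
@[simp] theorem star_star (d : DW s) : d.star.star = d := by
  ext <;> simp

theorem mem_H_star (d : DW s) (a : X) : a ∈ d.star.H ↔ a ∉ d.H := by
  unfold H
  simp only [Set.mem_ofPred_eq, star_lev, star_pt, star_dir]
  rw [← Ultrafilter.eventually_not]
  constructor <;> intro h <;> filter_upwards [h] with n hn
  · rw [hn]; cases d.dir <;> simp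
  · revert hn; cases d.dir <;> cases sg s d.lev d.pt n a <;> simp

theorem mem_H_congr (d : DW s) {a b : X}
    (h : ∀ᶠ n in (U : Filter ℕ), sg s d.lev d.pt n a = sg s d.lev d.pt n b) :
    a ∈ d.H ↔ b ∈ d.H := by
  constructor <;> intro h' <;> filter_upwards [h, h'] with n h1 h2
  · rw [← h1, h2]
  · rw [h1, h2]

theorem eventually_eq_of_iff (d : DW s) {a b : X} (h : a ∈ d.H ↔ b ∈ d.H) :
    ∀ᶠ n in (U : Filter ℕ), sg s d.lev d.pt n a = sg s d.lev d.pt n b := by
  by_cases ha : a ∈ d.H
  · filter_upwards [ha, h.mp ha] with n h1 h2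
    rw [h1, h2]
  · have hb : b ∉ d.H := fun hb => ha (h.mpr hb)
    rw [← mem_H_star] at ha hb
    filter_upwards [ha, hb] with n h1 h2
    exact h1.trans h2.symm

theorem pt_mem_H (d : DW s) : d.pt ∈ d.H ↔ d.dir = false := by
  unfold H
  simp only [Set.mem_ofPred_eq, sg_own0 d.wall.2, eventually_const]
  exact eq_comm

theorem flip_mem_H (d : DW s) : flip d.pt d.lev ∈ d.H ↔ d.dir = true := by
  have h : ∀ᶠ n in (U : Filter ℕ), sg s d.lev d.pt n (flip d.pt d.lev) = true :=
    U_of_atTop ((eventually_gt_atTop d.lev).mono fun n hn => sg_own1 d.pt n hn)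
  constructor
  · intro h'
    obtain ⟨n, h1, h2⟩ := (h.and h').exists
    rw [← h2, h1]
  · intro h'
    filter_upwards [h] with n hn
    rw [hn, h']

/-- same underlying wall -/
def Same (d e : DW s) : Prop := d.lev = e.lev ∧ d.pt = e.pt

theorem Same.eq_or {d e : DW s} (h : Same d e) : d = e ∨ d = e.star := by
  by_cases hd : d.dir = e.dir
  · left; exact DW.ext h.1 h.2 hd
  · right; refine DW.ext h.1 h.2 ?_
    revert hd; simp only [star_dir]; cases d.dir <;> cases e.dir <;> simp

theorem endpoints {d e : DW s} (h : ¬ Same d e) : e.pt ∈ d.H ↔ flip e.pt e.lev ∈ d.H :=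
  d.mem_H_congr (U_of_atTop ((eventually_dist d.wall e.wall h).mono
    fun n hn => sg_endpoints e.wall n hn))

theorem nested {d e : DW s} (h : ¬ Same d e) (a : X) :
    (a ∈ d.H ↔ e.pt ∈ d.H) ∨ (a ∈ e.H ↔ d.pt ∈ e.H) := by
  have h1 : ∀ᶠ n in (U : Filter ℕ), sg s d.lev d.pt n a = sg s d.lev d.pt n e.pt ∨
      sg s e.lev e.pt n a = sg s e.lev e.pt n d.pt := by
    apply U_of_atTop
    filter_upwards [eventually_dist d.wall e.wall h, eventually_gt_atTop d.lev,
      eventually_gt_atTop e.lev] with n h1 h2 h3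
    exact sg_nested d.wall e.wall n h2 h3 h1 a
  rcases Ultrafilter.eventually_or.mp h1 with h2 | h2
  · exact Or.inl (d.mem_H_congr h2)
  · exact Or.inr (e.mem_H_congr h2)

theorem sep_endpoints (d : DW s) : ¬ (d.pt ∈ d.H ↔ flip d.pt d.lev ∈ d.H) := by
  rw [pt_mem_H, flip_mem_H]; cases d.dir <;> simp

theorem H_injective : Function.Injective (H : DW s → Set X) := by
  intro d e h
  by_cases hs : Same d e
  · rcases hs.eq_or with h1 | h1
    · exact h1
    · exfalso
      have := e.mem_H_star e.pt
      rw [← h1, h] at this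
      exact iff_not_self this
  · exfalso
    have := endpoints hs
    rw [h] at this
    exact e.sep_endpoints this

noncomputable instance : PartialOrder (DW s) :=
  PartialOrder.lift (fun d => OrderDual.toDual d.H) fun _ _ h => H_injective h

theorem le_def {d e : DW s} : d ≤ e ↔ e.H ⊆ d.H := Iff.rfl

theorem star_le_star {d e : DW s} : d.star ≤ e.star ↔ e ≤ d := by
  simp only [le_def]
  constructor
  · intro h a ha
    by_contra hb
    exact (d.mem_H_star a).mp (h ((e.mem_H_star a).mpr hb)) ha
  · intro h a ha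
    exact (d.mem_H_star a).mpr fun hb => (e.mem_H_star a).mp ha (h hb)

theorem not_same_of_lt {d e : DW s} (h : d < e) : ¬ Same d e := by
  intro hs
  rcases hs.eq_or with h1 | h1
  · exact h.ne h1
  · have h2 : e.H ⊆ d.H := h.le
    have h3 : ∀ a, a ∉ e.H := fun a ha => (e.mem_H_star a).mp (h1 ▸ h2 ha) ha
    exact e.sep_endpoints ⟨fun h => absurd h (h3 _), fun h => absurd h (h3 _)⟩

theorem pt_mem_of_lt {d e : DW s} (h : d < e) : e.pt ∈ d.H := by
  have h1 := endpoints (not_same_of_lt h)
  have h2 : e.H ⊆ d.H := h.le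
  by_cases h3 : e.pt ∈ e.H
  · exact h2 h3
  · have h4 : flip e.pt e.lev ∈ e.H := by
      by_contra h4
      exact e.sep_endpoints ⟨fun h => absurd h h3, fun h => absurd h h4⟩
    exact h1.mpr (h2 h4)

theorem pt_not_mem_of_lt {d e : DW s} (h : d < e) : d.pt ∉ e.H := by
  have hs : ¬ Same e d := fun hs => not_same_of_lt h ⟨hs.1.symm, hs.2.symm⟩
  have h1 := endpoints hs
  have h2 : e.H ⊆ d.H := h.le
  intro h3
  exact d.sep_endpoints ⟨fun _ => h2 (h1.mp h3), fun _ => h2 h3⟩

end DW

/-- the directed walls crossed when going from `a` to `b` -/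
def D (s : ℕ → X) (a b : X) : Set (DW s) := {d | a ∉ d.H ∧ b ∈ d.H}

theorem star_mem_D {a b : X} {d : DW s} : d.star ∈ D s b a ↔ d ∈ D s a b := by
  simp only [D, Set.mem_ofPred_eq, DW.mem_H_star, not_not]
  exact and_comm

theorem D_convex {a b : X} {d1 d2 d3 : DW s} (h1 : d1 ∈ D s a b) (h3 : d3 ∈ D s a b)
    (h12 : d1 ≤ d2) (h23 : d2 ≤ d3) : d2 ∈ D s a b :=
  ⟨fun h => h1.1 (h12 h), h23 h3.2⟩

theorem D_same {a b : X} {d e : DW s} (hd : d ∈ D s a b) (he : e ∈ D s a b) (h : d.Same e) :
    d = e := by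
  rcases h.eq_or with h1 | h1
  · exact h1
  · exact absurd he.2 ((e.mem_H_star b).mp (h1 ▸ hd.2))

theorem D_total {a b : X} {d e : DW s} (hd : d ∈ D s a b) (he : e ∈ D s a b) :
    d ≤ e ∨ e ≤ d := by
  by_cases hs : d.Same e
  · exact Or.inl (D_same hd he hs).le
  · have hn := DW.nested hs
    by_cases h1 : e.pt ∈ d.H
    · left
      have h2 : d.pt ∉ e.H := by
        rcases hn a with h | h
        · exact absurd (h.mpr h1) hd.1
        · exact fun h' => he.1 (h.mpr h')
      intro z hz
      rcases hn z with h | h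
      · exact h.mpr h1
      · exact absurd (h.mp hz) h2
    · right
      have h2 : d.pt ∈ e.H := by
        rcases hn b with h | h
        · exact absurd (h.mp hd.2) h1
        · exact h.mp he.2
      intro z hz
      rcases hn z with h | h
      · exact absurd (h.mp hz) h1
      · exact h.mpr h2

theorem D_lt_or {a b : X} {d e : DW s} (hd : d ∈ D s a b) (he : e ∈ D s a b) :
    d < e ∨ e ≤ d := by
  rcases D_total hd he with h | h
  · rcases h.lt_or_eq with h | h
    · exact Or.inl h
    · exact Or.inr h.ge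
  · exact Or.inr h

theorem D_lt_of_mem {a b z : X} {d e : DW s} (hd : d ∈ D s a b) (he : e ∈ D s a b)
    (h1 : z ∈ d.H) (h2 : z ∉ e.H) : d < e := by
  rcases D_lt_or hd he with h | h
  · exact h
  · exact absurd (h h1) h2

end Pool.Agent.P.MP_21cc92_lc
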